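import Pool.Agent.helper35.EY.FinJ
import Pool.Agent.helper5.EY.Tr2

set_option autoImplicit false
set_option linter.unusedSectionVars false

/-!
# EY-FinL: finitely many lines, and finiteness of the eigenscheme of a step

* `FinLines P`: the vectors with property `P` lie on finitely many lines through `0`;
* `finLines_of_hyperplane`, `finLines_of_cover`: homogeneous systems over any finite index type;
* `exists_isolating`: if `mulAt (affIdeal f S w) p ≠ 0`, then `(1, p)` is isolated among the eigenvectors;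
* `finLines_step`: `∂_y f = y Q`, the eigenvectors with `y = 0` are finitely many, the vectors with `y = 0` and
  `∇f = Q · Sx` are multiples of `(1,p)`, and `mulAt (affIdeal f S w) p ≠ 0` imply that `f` has finitely many
  eigenvectors;
* `hfin_of_finLines`: the hypotheses `hfin1`, `hfin2` of `transfer`.
-/

namespace EY

open MvPolynomial Pool.Agent.helper62.BZ LinearAlgebra.Projectivization

noncomputable section

/-- the vectors with property `P` lie on finitely many lines through `0` -/
def FinLines {κ : Type*} (P : (κ → ℂ) → Prop) : Prop :=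
  ∃ T : Set (κ → ℂ), T.Finite ∧ ∀ x, P x → ∃ t ∈ T, ∃ c : ℂ, x = c • t

section FinLines

variable {κ : Type*}

theorem FinLines.mono {P Q : (κ → ℂ) → Prop} (hQ : FinLines Q) (h : ∀ x, P x → Q x) : FinLines P := by
  obtain ⟨T, hT, hT'⟩ := hQ
  exact ⟨T, hT, fun x hx => hT' x (h x hx)⟩

theorem FinLines.or {P Q : (κ → ℂ) → Prop} (hP : FinLines P) (hQ : FinLines Q) :
    FinLines (fun x => P x ∨ Q x) := by
  obtain ⟨T, hT, hT'⟩ := hP
  obtain ⟨U, hU, hU'⟩ := hQ
  refine ⟨T ∪ U, hT.union hU, ?_⟩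
  rintro x (hx | hx)
  · obtain ⟨t, ht, c, hc⟩ := hT' x hx
    exact ⟨t, Or.inl ht, c, hc⟩
  · obtain ⟨t, ht, c, hc⟩ := hU' x hx
    exact ⟨t, Or.inr ht, c, hc⟩

theorem FinLines.single {P : (κ → ℂ) → Prop} (e : κ → ℂ) (h : ∀ x, P x → ∃ c : ℂ, x = c • e) : FinLines P :=
  ⟨{e}, Set.finite_singleton e, fun x hx => ⟨e, rfl, h x hx⟩⟩

theorem FinLines.biUnion {ι : Type*} {s : Set ι} (hs : s.Finite) {P : ι → (κ → ℂ) → Prop}
    (h : ∀ i ∈ s, FinLines (P i)) : FinLines (fun x => ∃ i ∈ s, P i x) := by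
  classical
  choose! T hT hT' using h
  refine ⟨⋃ i ∈ s, T i, hs.biUnion fun i hi => hT i hi, ?_⟩
  rintro x ⟨i, hi, hx⟩
  obtain ⟨t, ht, c, hc⟩ := hT' i hi x hx
  exact ⟨t, Set.mem_biUnion hi ht, c, hc⟩

/-- finitely many vectors lie on finitely many lines -/
theorem FinLines.of_finite {P : (κ → ℂ) → Prop} (h : {x | P x}.Finite) : FinLines P :=
  ⟨{x | P x}, h, fun x hx => ⟨x, hx, 1, (one_smul _ _).symm⟩⟩

/-- vectors with `x_i = 1` on finitely many lines are finitely many -/
theorem FinLines.finite_chart {P : (κ → ℂ) → Prop} (h : FinLines P) (i : κ) :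
    {x | P x ∧ x i = 1}.Finite := by
  obtain ⟨T, hT, hT'⟩ := h
  refine (hT.image (fun t => (t i)⁻¹ • t)).subset ?_
  rintro x ⟨hx, hxi⟩
  obtain ⟨t, ht, c, hc⟩ := hT' x hx
  refine ⟨t, ht, ?_⟩
  have h1 : c * t i = 1 := by
    rw [hc] at hxi
    simpa using hxi
  have h2 : (t i)⁻¹ = c := by
    have h3 : t i ≠ 0 := by
      intro h0
      rw [h0, mul_zero] at h1
      exact zero_ne_one h1
    field_simp
    rw [mul_comm]
    exact h1.symm
  simp only [h2]
  exact hc.symm

end FinLines

section systems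

lemma finLines_of_projZeros {n : ℕ} (S : Set (MvPolynomial (Fin n) ℂ)) (hS : ∀ f ∈ S, ∃ e, f.IsHomogeneous e)
    (h : (projZeros S).Finite) : FinLines (fun v : Fin n → ℂ => ∀ f ∈ S, eval v f = 0) := by
  refine ⟨insert 0 ((fun P : ℙ ℂ (Fin n → ℂ) => P.rep) '' projZeros S), (h.image _).insert _, ?_⟩
  intro v hv
  by_cases h0 : v = 0
  · exact ⟨0, Set.mem_insert _ _, 0, by rw [h0, smul_zero]⟩
  · obtain ⟨a, ha⟩ := Projectivization.exists_smul_eq_mk_rep ℂ v h0
    have ha' : (Projectivization.mk ℂ v h0).rep = (a : ℂ) • v := ha.symm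
    refine ⟨(Projectivization.mk ℂ v h0).rep, Set.mem_insert_of_mem _ ⟨_, ?_, rfl⟩, (a : ℂ)⁻¹, ?_⟩
    · intro f hf
      rw [ha']
      obtain ⟨e, he⟩ := hS f hf
      exact eval_smul_zero he _ (hv f hf)
    · rw [ha', smul_smul, inv_mul_cancel₀ a.ne_zero, one_smul]

variable {κ : Type*} [Finite κ]

/-- a homogeneous system without nonzero zero on the hypersurface `g = 0` has finitely many projective zeros -/
theorem finLines_of_hyperplane (S : Set (MvPolynomial κ ℂ)) (hS : ∀ f ∈ S, ∃ e, f.IsHomogeneous e)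
    {g : MvPolynomial κ ℂ} {d : ℕ} (hd : 0 < d) (hg : g.IsHomogeneous d)
    (h0 : ∀ v : κ → ℂ, (∀ f ∈ S, eval v f = 0) → eval v g = 0 → v = 0) :
    FinLines (fun v : κ → ℂ => ∀ f ∈ S, eval v f = 0) := by
  obtain ⟨n, ⟨e⟩⟩ := Finite.exists_equiv_fin κ
  have hS' : ∀ f ∈ (rename e '' S : Set (MvPolynomial (Fin n) ℂ)), ∃ d, f.IsHomogeneous d := by
    rintro _ ⟨f, hf, rfl⟩
    obtain ⟨d, hd⟩ := hS f hf
    exact ⟨d, hd.rename_isHomogeneous⟩
  have h1 := finite_proj_of_hyperplane (rename e '' S) hS' hd (g := rename e g) hg.rename_isHomogeneous (by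
    intro v hv hvg
    have h2 : v ∘ e = 0 := by
      apply h0
      · intro f hf
        have := hv _ ⟨f, hf, rfl⟩
        rwa [eval_rename] at this
      · rwa [eval_rename] at hvg
    funext i
    have h3 := congrFun h2 (e.symm i)
    simpa using h3)
  obtain ⟨T, hT, hT'⟩ := finLines_of_projZeros _ hS' h1
  refine ⟨(fun t => t ∘ e) '' T, hT.image _, ?_⟩
  intro v hv
  obtain ⟨t, ht, c, hc⟩ := hT' (v ∘ e.symm) (by
    rintro _ ⟨f, hf, rfl⟩
    rw [eval_rename]
    have h2 : (v ∘ e.symm) ∘ e = v := by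
      funext i
      simp
    rw [h2]
    exact hv f hf)
  refine ⟨t ∘ e, ⟨t, ht, rfl⟩, c, ?_⟩
  funext i
  have h3 := congrFun hc (e i)
  simpa using h3

/-- a homogeneous system `S` covered by finitely many open sets `g ≠ 0` along the hypersurface `l = 0`, each of
which contains finitely many projective zeros, has finitely many projective zeros -/
theorem finLines_of_cover (S : Set (MvPolynomial κ ℂ)) (hS : ∀ f ∈ S, ∃ e, f.IsHomogeneous e)
    (G : Set (MvPolynomial κ ℂ)) (hGf : G.Finite) (hG : ∀ g ∈ G, ∃ e, g.IsHomogeneous e)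
    {l : MvPolynomial κ ℂ} {d : ℕ} (hd : 0 < d) (hl : l.IsHomogeneous d)
    (h0 : ∀ v : κ → ℂ, (∀ f ∈ S, eval v f = 0) → (∀ g ∈ G, eval v g = 0) → eval v l = 0 → v = 0)
    (h1 : ∀ g ∈ G, FinLines (fun v : κ → ℂ => (∀ f ∈ S, eval v f = 0) ∧ eval v g ≠ 0)) :
    FinLines (fun v : κ → ℂ => ∀ f ∈ S, eval v f = 0) := by
  have h2 := finLines_of_hyperplane (S ∪ G) (by
    rintro f (hf | hf)
    · exact hS f hf
    · exact hG f hf) hd hl (by
    intro v hv hvl
    exact h0 v (fun f hf => hv f (Or.inl hf)) (fun g hg => hv g (Or.inr hg)) hvl)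
  refine (h2.or (FinLines.biUnion hGf h1)).mono ?_
  intro v hv
  by_cases h3 : ∀ g ∈ G, eval v g = 0
  · left
    rintro f (hf | hf)
    · exact hv f hf
    · exact h3 f hf
  · right
    push Not at h3
    obtain ⟨g, hg, hgv⟩ := h3
    exact ⟨g, hg, hv, hgv⟩

end systems

section isolated

variable {κ' : Type} [Fintype κ'] [DecidableEq κ']

/-- homogenisation with respect to the variable `none` -/
def hmgO (s : MvPolynomial κ' ℂ) : MvPolynomial (Option κ') ℂ :=
  ∑ t ∈ Finset.range (s.totalDegree + 1), X none ^ (s.totalDegree - t) * rename some (homogeneousComponent t s)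

lemma hmgO_isHomogeneous (s : MvPolynomial κ' ℂ) : (hmgO s).IsHomogeneous s.totalDegree := by
  apply IsHomogeneous.sum
  intro t ht
  have h1 : s.totalDegree = (s.totalDegree - t) + t := by
    have := Finset.mem_range.mp ht
    omega
  conv_rhs => rw [h1]
  refine IsHomogeneous.mul ?_ (homogeneousComponent_isHomogeneous t s).rename_isHomogeneous
  simpa using (isHomogeneous_X ℂ (none : Option κ')).pow (s.totalDegree - t)

lemma eval_hmgO (s : MvPolynomial κ' ℂ) {v : Option κ' → ℂ} (hv : v none = 1) :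
    eval v (hmgO s) = eval (fun k => v (some k)) s := by
  unfold hmgO
  rw [map_sum]
  conv_rhs => rw [← sum_homogeneousComponent s, map_sum]
  apply Finset.sum_congr rfl
  intro t _
  rw [map_mul, map_pow, eval_X, hv, one_pow, one_mul, eval_rename]
  rfl

lemma sl_eq_X {κ : Type} [Fintype κ] [DecidableEq κ] (S : Matrix κ κ ℂ) (w z : κ)
    (hw : ∀ j, S w j = if j = z then 1 else 0) : sl S w = X z := by
  unfold sl
  simp only [hw]
  simp

lemma eval_aff_of_isEig {f : MvPolynomial (Option κ') ℂ} {S : Matrix (Option κ') (Option κ') ℂ}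
    {w : Option κ'} (hw : ∀ j, S w j = if j = none then 1 else 0) {x : Option κ' → ℂ} (hx : IsEig f S x)
    (hx1 : x none = 1) : ∀ g ∈ affIdeal f S w, eval (fun k => x (some k)) g = 0 := by
  intro g hg
  have hform : (fun o : Option κ' => o.elim 1 (fun k => x (some k))) = x := by
    funext o
    cases o with
    | none => exact hx1.symm
    | some k => rfl
  unfold affIdeal at hg
  induction hg using Submodule.span_induction with
  | mem g hg =>
    obtain ⟨j, rfl⟩ := hg
    rw [eval_dehom, hform]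
    have h4 := hx w j
    rw [sl_eq_X S w none hw, map_sub, map_mul, map_mul, eval_X, hx1, one_mul] at h4
    rw [map_sub, map_mul]
    exact h4
  | zero => simp
  | add u v _ _ hu hv => rw [map_add, hu, hv, add_zero]
  | smul c u _ hu => rw [smul_eq_mul, map_mul, hu, mul_zero]

/-- a positive finite local length isolates the point `(1, p)` among the eigenvectors -/
theorem exists_isolating {d : ℕ} (f : MvPolynomial (Option κ') ℂ) (hf : f.IsHomogeneous d)
    (S : Matrix (Option κ') (Option κ') ℂ) (w : Option κ')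
    (hw : ∀ j, S w j = if j = none then 1 else 0) (p : κ' → ℂ)
    (hmul : mulAt (affIdeal f S w) p ≠ 0) :
    ∃ (g : MvPolynomial (Option κ') ℂ) (e : ℕ), g.IsHomogeneous e ∧
      eval (fun o : Option κ' => o.elim 1 p) g ≠ 0 ∧
      ∀ v, IsEig f S v → eval v g ≠ 0 → ∃ c : ℂ, v = c • (fun o : Option κ' => o.elim 1 p) := by
  classical
  have hfin : Module.Finite ℂ (Localization.AtPrime (pt p) ⧸ (affIdeal f S w).map
      (algebraMap (MvPolynomial κ' ℂ) (Localization.AtPrime (pt p)))) :=
    Module.finite_of_finrank_pos (Nat.pos_of_ne_zero hmul)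
  have key : ∀ j : κ', ∃ s, s ∉ pt p ∧ s * (X j - C (p j)) ^ (mulAt (affIdeal f S w) p) ∈ affIdeal f S w := by
    intro j
    refine killed_of_finite (affIdeal f S w) p hfin le_rfl _ (Ideal.pow_mem_pow ?_ _)
    rw [pt, RingHom.mem_ker]
    simp
  choose s hs hsI using key
  set N := mulAt (affIdeal f S w) p with hN
  set s₀ : MvPolynomial κ' ℂ := ∏ j, s j with hs₀
  have hs₀p : eval p s₀ ≠ 0 := by
    rw [hs₀, map_prod]
    exact Finset.prod_ne_zero_iff.mpr fun j _ h => hs j (by rw [pt, RingHom.mem_ker]; exact h)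
  set e₁ : Option κ' → ℂ := fun o => o.elim 1 p with he₁
  refine ⟨X none * hmgO s₀, 1 + s₀.totalDegree, (isHomogeneous_X ℂ none).mul (hmgO_isHomogeneous s₀), ?_, ?_⟩
  · rw [map_mul, eval_X, eval_hmgO s₀ (v := e₁) rfl]
    have h1 : (fun k => e₁ (some k)) = p := rfl
    rw [h1, show e₁ none = 1 from rfl, one_mul]
    exact hs₀p
  · intro v hv hvg
    rw [map_mul, eval_X] at hvg
    have hv0 : v none ≠ 0 := left_ne_zero_of_mul hvg
    have hvs : eval v (hmgO s₀) ≠ 0 := right_ne_zero_of_mul hvg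
    set v₁ : Option κ' → ℂ := (v none)⁻¹ • v with hv₁
    have hv₁n : v₁ none = 1 := by
      rw [hv₁, Pi.smul_apply, smul_eq_mul, inv_mul_cancel₀ hv0]
    have hvv : v = (v none) • v₁ := by
      rw [hv₁, smul_smul, mul_inv_cancel₀ hv0, one_smul]
    have hv₁e : IsEig f S v₁ := hv.smul hf _
    have hz := eval_aff_of_isEig hw hv₁e hv₁n
    have hvs' : eval (fun k => v₁ (some k)) s₀ ≠ 0 := by
      rw [← eval_hmgO s₀ hv₁n]
      intro h0
      apply hvs
      rw [hvv, eval_smul_hom (hmgO_isHomogeneous s₀), h0, mul_zero]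
    refine ⟨v none, ?_⟩
    conv_lhs => rw [hvv]
    congr 1
    funext o
    cases o with
    | none => exact hv₁n
    | some j =>
      have h1 := hz _ (hsI j)
      rw [map_mul, map_pow, map_sub, eval_X, eval_C, mul_eq_zero] at h1
      rcases h1 with h1 | h1
      · exfalso
        apply hvs'
        rw [hs₀, map_prod]
        exact Finset.prod_eq_zero (Finset.mem_univ j) h1
      · exact sub_eq_zero.mp (eq_zero_of_pow_eq_zero h1)

/-- the finiteness hypotheses of `transfer` -/
theorem hfin_of_finLines (f : MvPolynomial (Option κ') ℂ)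
    (S : Matrix (Option κ') (Option κ') ℂ) (w : Option κ') (h : FinLines (IsEig f S)) :
    {q : κ' → ℂ | ∀ g ∈ affIdeal f S w, eval q g = 0}.Finite ∧
    ∃ T : Set (Option κ' → ℂ), T.Finite ∧
      ∀ x, x none = 0 → IsEig f S x → ∃ t ∈ T, ∃ c : ℂ, x = c • t := by
  refine ⟨?_, ?_⟩
  · have h1 := h.finite_chart none
    refine Set.Finite.of_finite_image (f := fun q : κ' → ℂ => (fun o : Option κ' => o.elim 1 q)) ?_ ?_
    · refine h1.subset ?_
      rintro _ ⟨q, hq, rfl⟩
      refine ⟨?_, rfl⟩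
      set v : Option κ' → ℂ := fun o => o.elim 1 q with hv
      -- the generators `∂_j f - (Sx)_j ∂_w f` vanish at `v`
      have hg : ∀ j, eval v (pderiv j f) = eval v (sl S j) * eval v (pderiv w f) := by
        intro j
        have h2 := hq (dehom (pderiv j f - sl S j * pderiv w f)) (Ideal.subset_span ⟨j, rfl⟩)
        rw [eval_dehom, map_sub, map_mul] at h2
        exact sub_eq_zero.mp h2
      intro j k
      rw [map_sub, map_mul, map_mul, hg j, hg k]
      ring
    · intro q _ q' _ hqq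
      funext k
      exact congrFun hqq (some k)
  · obtain ⟨T, hT, hT'⟩ := h
    exact ⟨T, hT, fun x _ hx => hT' x hx⟩

end isolated

/-- THE STEP: `∂_y f = y Q` -/
theorem finLines_step {κ' : Type} [Fintype κ'] [DecidableEq κ'] {d m : ℕ} (f : MvPolynomial (Option κ') ℂ)
    (hf : f.IsHomogeneous d)
    (S : Matrix (Option κ') (Option κ') ℂ) (w : Option κ')
    (hw : ∀ j, S w j = if j = none then 1 else 0) (y : Option κ')
    (hy : ∀ j, S y j = if j = y then 1 else 0)
    (Q : MvPolynomial (Option κ') ℂ) (hQ : pderiv y f = X y * Q) (hQm : Q.IsHomogeneous m) (hm : m + 2 = d)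
    (p : κ' → ℂ)
    (hbase : FinLines (fun v => IsEig f S v ∧ v y = 0))
    (hX : ∀ v : Option κ' → ℂ, v y = 0 → (∀ k, eval v (pderiv k f) = eval v Q * eval v (sl S k)) →
      ∃ c : ℂ, v = c • (fun o : Option κ' => o.elim 1 p))
    (hmul : mulAt (affIdeal f S w) p ≠ 0) :
    FinLines (IsEig f S) := by
  classical
  obtain ⟨g, e, hg, hgp, hiso⟩ := exists_isolating f hf S w hw p hmul
  set Sys : Set (MvPolynomial (Option κ') ℂ) :=
    Set.range (fun jk : Option κ' × Option κ' => sl S jk.1 * pderiv jk.2 f - sl S jk.2 * pderiv jk.1 f) with hSys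
  have hSysE : ∀ v, (∀ h ∈ Sys, eval v h = 0) ↔ IsEig f S v := by
    intro v
    constructor
    · intro h j k
      exact h _ ⟨(j, k), rfl⟩
    · rintro h _ ⟨⟨j, k⟩, rfl⟩
      exact h j k
  set G : Set (MvPolynomial (Option κ') ℂ) :=
    insert g (Set.range fun k : Option κ' => pderiv k f - Q * sl S k) with hG
  have hfin : G.Finite := (Set.finite_range _).insert _
  have hsy : sl S y = X y := sl_eq_X S y y hy
  have hmain := finLines_of_cover Sys (by
      rintro _ ⟨⟨j, k⟩, rfl⟩
      exact ⟨_, minor_isHomogeneous S hf j k⟩) G hfin (by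
      rintro _ (rfl | ⟨k, rfl⟩)
      · exact ⟨e, hg⟩
      · refine ⟨d - 1, (hf.pderiv).sub ?_⟩
        have h1 := hQm.mul (sl_isHomogeneous S k)
        have h2 : m + 1 = d - 1 := by omega
        rwa [h2] at h1) (l := X y) (d := 1) one_pos (isHomogeneous_X ℂ y) (by
      intro v hv hvG hvy
      rw [eval_X] at hvy
      obtain ⟨c, hc⟩ := hX v hvy (fun k => by
        have h1 := hvG _ (Set.mem_insert_of_mem _ ⟨k, rfl⟩)
        rw [map_sub, map_mul] at h1
        exact sub_eq_zero.mp h1)
      have h2 := hvG g (Set.mem_insert _ _)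
      rw [hc, eval_smul_hom hg, mul_eq_zero] at h2
      rcases h2 with h2 | h2
      · rw [hc, eq_zero_of_pow_eq_zero h2, zero_smul]
      · exact absurd h2 hgp) (by
      rintro _ (rfl | ⟨k, rfl⟩)
      · refine FinLines.single (fun o : Option κ' => o.elim 1 p) ?_
        rintro v ⟨hv, hvg⟩
        exact hiso v ((hSysE v).mp hv) hvg
      · refine hbase.mono ?_
        rintro v ⟨hv, hvk⟩
        refine ⟨(hSysE v).mp hv, ?_⟩
        have h1 := (hSysE v).mp hv k y
        rw [hQ, hsy] at h1
        simp only [map_sub, map_mul, eval_X] at h1 hvk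
        have h2 : v y * (eval v (pderiv k f) - eval v Q * eval v (sl S k)) = 0 := by
          linear_combination -h1
        rcases mul_eq_zero.mp h2 with h3 | h3
        · exact h3
        · exact absurd h3 hvk)
  exact hmain.mono fun v hv => (hSysE v).mpr hv

end

end EY
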