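import Pool.Agent.helper35.EY.FinS

set_option autoImplicit false
set_option linter.unusedSectionVars false
set_option linter.unusedSimpArgs false

/-!
# EY-FinZ: finiteness for the steps of small q

`R = θ u^(q-2) (b + ω w) + β u^(q-2) y`, `b = x_{i0}`, i.e. `f = φ(Q; w, x) + θ u^(q-2) (b + ω w) y² + β u^(q-2) y³`.

* `MSt.finZ`: over a metric class C state without critical points with `b + ω w = 0`, `w ≠ 0`;
* `MSt.finZ_generic`: all but finitely many `ω` satisfy this condition;
* `efin_finZ`: over a form `F(w, x)` without critical points such that `F(0, x)` has finitely many eigenvectors and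
  `F_w(0, x) = τ b^q`.
-/

namespace EY

open MvPolynomial

noncomputable section

variable {τ : Type} [Fintype τ] [DecidableEq τ]

/-- `R = θ u^(q-2) (b + ω w) + β u^(q-2) y` -/
def RZ (τ : Type) (q : ℕ) (i0 : τ) (ω θ β : ℂ) : MvPolynomial (Option (Option (Option (Option τ)))) ℂ :=
  C θ * (X (some none) ^ (q - 2) * (X (some (some (some (some i0)))) + C ω * X (some (some none)))) +
    C β * (X (some none) ^ (q - 2) * X (some (some (some none))))

theorem wh_RZ {q : ℕ} (hq : 2 ≤ q) (i0 : τ) (ω θ β : ℂ) :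
    wh (vT (Option (Option (Option τ)))) (q - 1) (RZ τ q i0 ω θ β) := by
  unfold RZ
  have e1 : vT (Option (Option (Option τ))) (some none) = 1 := rfl
  have e2 : vT (Option (Option (Option τ))) (some (some none)) = 1 := rfl
  have e3 : vT (Option (Option (Option τ))) (some (some (some none))) = 1 := rfl
  have e4 : vT (Option (Option (Option τ))) (some (some (some (some i0)))) = 1 := rfl
  have hu := wh_pow (wh_X (vT (Option (Option (Option τ)))) (some none)) (q - 2)
  have hw := wh_C_mul ω (wh_X (vT (Option (Option (Option τ)))) (some (some none)))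
  have hb := wh_X (vT (Option (Option (Option τ)))) (some (some (some (some i0))))
  have hy := wh_X (vT (Option (Option (Option τ)))) (some (some (some none)))
  rw [e1] at hu
  rw [e2] at hw
  rw [e3] at hy
  rw [e4] at hb
  refine wh_add (wh_C_mul θ ?_) (wh_C_mul β ?_)
  · have h1 := wh_mul hu (wh_add hb hw)
    have h2 : 1 * (q - 2) + 1 = q - 1 := by omega
    rwa [h2] at h1
  · have h1 := wh_mul hu hy
    have h2 : 1 * (q - 2) + 1 = q - 1 := by omega
    rwa [h2] at h1

theorem eval_RZ (q : ℕ) (i0 : τ) (ω θ β t u w : ℂ) (x : τ → ℂ) :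
    eval (vecT t u w 0 x) (RZ τ q i0 ω θ β) = θ * (u ^ (q - 2) * (x i0 + ω * w)) := by
  unfold RZ
  simp only [map_add, map_mul, map_pow, eval_C, eval_X]
  have h1 : vecT t u w 0 x (some (some (some none))) = 0 := rfl
  rw [h1]
  have h2 : vecT t u w 0 x (some none) = u := rfl
  have h3 : vecT t u w 0 x (some (some none)) = w := rfl
  have h4 : vecT t u w 0 x (some (some (some (some i0)))) = x i0 := rfl
  rw [h2, h3, h4]
  ring

/-- the step over a metric class C state -/
theorem MSt.finZ {q E₀ : ℕ} {φ : MvPolynomial (Option (Option τ)) ℂ} (h : MSt τ q E₀ φ) (hq : 2 ≤ q) (i0 : τ)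
    (ω β : ℂ)
    (hb : ∀ (s w : ℂ) (x : τ → ℂ), (∀ o, eval (vec s w x) (pderiv (some o) φ) = 0) → x i0 + ω * w = 0 → w = 0)
    (hmul : ∀ θ : ℂ, θ ≠ 0 →
      mulAt (affIdeal (formR φ (RZ τ q i0 ω θ β)) (gram (Option τ)) (some none)) 0 ≠ 0) :
    {θ : ℂ | ¬ ProjFin {x | IsEig (formR φ (RZ τ q i0 ω θ β)) (gram (Option τ)) x}}.Finite := by
  have hψ := classC_finLines' hq h.wh h.hi h.fin
  obtain ⟨B, hB, H⟩ := classC_claim hq (fun s w x => eval (vec s w x) (pderiv (some none) φ))
    (fun i s w x => eval (vec s w x) (pderiv (some (some i)) φ)) (scale_deriv h.wh none)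
    (fun i => scale_deriv h.wh (some i)) (Px φ) (Px_hom h.wh) eval_Px h.hi
    (by
      refine (finite_crit φ h.fin).subset ?_
      rintro z ⟨h4, h5⟩ o
      rcases o with _ | i
      · exact h4
      · exact h5 i)
    (fun u w x => 2 * (u ^ (q - 2) * (x i0 + ω * w))) (fun _ _ _ => 0)
    (by
      intro c u w x
      have h1 : q - 1 = (q - 2) + 1 := by omega
      rw [Pi.smul_apply, smul_eq_mul, mul_pow, h1, pow_succ]
      ring)
    (by intros; ring) (by intros; rfl)
    (by
      intro u w x hw h1 h2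
      have h3 : ∀ o, eval (vec (u * w + hsq x) w x) (pderiv (some o) φ) = 0 := by
        intro o
        rcases o with _ | i
        · exact h1
        · exact h2 i
      have hu : u ≠ 0 := by
        rintro rfl
        rw [zero_mul, zero_add] at h3
        exact hw (h.hii w x h3)
      exact mul_ne_zero two_ne_zero (mul_ne_zero (pow_ne_zero _ hu) fun h4 => hw (hb _ w x h3 h4)))
  refine (hB.union (Set.finite_singleton (0 : ℂ))).subset ?_
  intro θ hθ
  by_contra hcon
  rw [Set.mem_union, not_or, Set.mem_singleton_iff] at hcon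
  apply hθ
  refine step_finLines (by omega) h.wh (wh_RZ hq i0 ω θ β) hψ ?_ (hmul θ hcon.2)
  intro u w x μ hμ h4 h5 h6
  refine H θ hcon.1 u w x μ ?_ h4 h5 h6
  rw [hμ, eval_RZ]
  ring

/-- all but finitely many `ω` satisfy the condition of `MSt.finZ` -/
theorem St.finZ_generic {q E₀ : ℕ} {φ : MvPolynomial (Option (Option τ)) ℂ} (h : St τ q E₀ φ) (i0 : τ) :
    {ω : ℂ | ¬ ∀ (s w : ℂ) (x : τ → ℂ), (∀ o, eval (vec s w x) (pderiv (some o) φ) = 0) → x i0 + ω * w = 0 →
      w = 0}.Finite := by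
  refine ((finite_crit φ h.fin).image fun z => - z.2 i0).subset ?_
  intro ω hω
  have hω' : ¬ ∀ (s w : ℂ) (x : τ → ℂ), (∀ o, eval (vec s w x) (pderiv (some o) φ) = 0) → x i0 + ω * w = 0 →
    w = 0 := hω
  push Not at hω'
  obtain ⟨s, w, x, h1, h2, h3⟩ := hω'
  refine ⟨(w⁻¹ ^ 2 * s, w⁻¹ • x), fun o => ?_, ?_⟩
  · have h4 := scale_deriv h.wh o w⁻¹ s w x
    rw [h1 o, mul_zero, inv_mul_cancel₀ h3] at h4
    exact h4
  · simp only [Pi.smul_apply, smul_eq_mul]
    field_simp
    linear_combination -h2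

/-- the step over a form `F(w, x)`: finiteness -/
theorem efin_finZ {q : ℕ} (hq : 2 ≤ q) {φ : MvPolynomial (Option (Option τ)) ℂ} (hφ : wh (vw τ) (q + 1) φ)
    (hψ : FinLines (IsEig (formC φ) (gram τ)))
    (hns : ∀ (s w : ℂ) (x : τ → ℂ), (∀ o, eval (vec s w x) (pderiv (some o) φ) = 0) → w = 0 ∧ x = 0)
    (hP : FinLines (fun x : τ → ℂ => ∃ μ : ℂ, ∀ i, eval (vec (hsq x) 0 x) (pderiv (some (some i)) φ) = μ * x i))
    (i0 : τ) (ta : ℂ) (hta : ta ≠ 0)
    (hw : ∀ x : τ → ℂ, eval (vec (hsq x) 0 x) (pderiv (some none) φ) = ta * x i0 ^ q) (β : ℂ)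
    (hmul : ∀ θ : ℂ, θ ≠ 0 →
      mulAt (affIdeal (formR φ (RZ τ q i0 0 θ β)) (gram (Option τ)) (some none)) 0 ≠ 0) :
    {θ : ℂ | ¬ ProjFin {x | IsEig (formR φ (RZ τ q i0 0 θ β)) (gram (Option τ)) x}}.Finite := by
  classical
  obtain ⟨T, hT, hT'⟩ := hP
  -- the eigenvalue of `t`
  let nu : (τ → ℂ) → ℂ := fun t =>
    if h : ∃ μ : ℂ, ∀ i, eval (vec (hsq t) 0 t) (pderiv (some (some i)) φ) = μ * t i then h.choose else 0
  refine ((hT.image fun t : τ → ℂ => nu t ^ (q - 1) / (2 * ta ^ (q - 2) * t i0 ^ ((q - 1) * (q - 1)))).union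
    (Set.finite_singleton (0 : ℂ))).subset ?_
  intro θ hθ
  by_contra hcon
  rw [Set.mem_union, not_or, Set.mem_singleton_iff] at hcon
  apply hθ
  refine step_finLines (by omega) hφ (wh_RZ hq i0 0 θ β) hψ ?_ (hmul θ hcon.2)
  intro u w x μ hμ h4 h5 h6
  rw [eval_RZ, zero_mul, add_zero] at hμ
  by_cases hw0 : w = 0
  · subst hw0
    refine ⟨rfl, ?_⟩
    rw [mul_zero, zero_add] at h5 h6
    by_contra hx
    obtain ⟨t, ht, c, hc⟩ := hT' x ⟨μ, h6⟩
    have hc0 : c ≠ 0 := by
      rintro rfl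
      rw [zero_smul] at hc
      exact hx hc
    have htx : t = c⁻¹ • x := by
      rw [hc, smul_smul, inv_mul_cancel₀ hc0, one_smul]
    -- `t` is an eigenvector
    have hscale : ∀ o, eval (vec (hsq x) 0 x) (pderiv (some o) φ) =
        c ^ q * eval (vec (hsq t) 0 t) (pderiv (some o) φ) := by
      intro o
      have h7 := scale_deriv hφ o c (hsq t) 0 t
      rw [mul_zero, ← hsq_smul, ← hc] at h7
      exact h7
    have hex : ∃ μ : ℂ, ∀ i, eval (vec (hsq t) 0 t) (pderiv (some (some i)) φ) = μ * t i := by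
      refine ⟨(c ^ q)⁻¹ * μ * c, fun i => ?_⟩
      have h7 := hscale (some i)
      rw [h6 i, hc, Pi.smul_apply, smul_eq_mul] at h7
      have h8 : c ^ q ≠ 0 := pow_ne_zero _ hc0
      field_simp
      linear_combination -h7
    have hnu : ∀ i, eval (vec (hsq t) 0 t) (pderiv (some (some i)) φ) = nu t * t i := by
      have h7 : nu t = hex.choose := dif_pos hex
      rw [h7]
      exact hex.choose_spec
    have ht0 : ∃ i, t i ≠ 0 := by
      by_contra hall
      push Not at hall
      apply hx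
      rw [hc]
      funext i
      simp [hall i]
    obtain ⟨i1, hi1⟩ := ht0
    have hq1 : c ^ q = c ^ (q - 1) * c := by
      rw [← pow_succ]
      congr 1
      omega
    have hμ1 : μ = c ^ (q - 1) * nu t := by
      have h7 := hscale (some i1)
      rw [h6 i1, hnu i1, hc, Pi.smul_apply, smul_eq_mul, hq1] at h7
      have h8 : c * t i1 ≠ 0 := mul_ne_zero hc0 hi1
      have h9 : (μ - c ^ (q - 1) * nu t) * (c * t i1) = 0 := by linear_combination h7
      exact sub_eq_zero.mp ((mul_eq_zero.mp h9).resolve_right h8)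
    have hb : t i0 ≠ 0 := by
      intro h7
      have h8 : μ = 0 := by
        rw [hμ, hc, Pi.smul_apply, smul_eq_mul, h7]
        ring
      have h9 : nu t = 0 := by
        rw [h8] at hμ1
        exact ((mul_eq_zero.mp hμ1.symm).resolve_left (pow_ne_zero _ hc0))
      have h10 := hns (hsq t) 0 t (by
        intro o
        rcases o with _ | i
        · rw [hw, h7, zero_pow (by omega), mul_zero]
        · rw [hnu i, h9, zero_mul])
      exact hi1 (congrFun h10.2 i1)
    -- the value of `u`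
    have hu : c ^ (q - 1) * nu t * u = ta * (c ^ q * t i0 ^ q) := by
      rw [← hμ1, ← h5, hw, hc, Pi.smul_apply, smul_eq_mul, mul_pow]
    have hcq1 : c ^ (q - 1) ≠ 0 := pow_ne_zero _ hc0
    have hu' : nu t * u = ta * (c * t i0 ^ q) := by
      have h7 : c ^ (q - 1) * (nu t * u - ta * (c * t i0 ^ q)) = 0 := by
        rw [hq1] at hu
        linear_combination hu
      exact sub_eq_zero.mp ((mul_eq_zero.mp h7).resolve_left hcq1)
    have hnu0 : nu t ≠ 0 := by
      intro h7
      rw [h7, zero_mul] at hu'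
      exact (mul_ne_zero hta (mul_ne_zero hc0 (pow_ne_zero _ hb))) hu'.symm
    -- `c^(q-1) ν = 2 θ u^(q-2) c b`
    have h7 : c ^ (q - 1) * nu t = 2 * (θ * (u ^ (q - 2) * (c * t i0))) := by
      rw [← hμ1, hμ, hc, Pi.smul_apply, smul_eq_mul]
    have h8 : nu t ^ (q - 1) * c ^ (q - 1) =
        θ * (2 * ta ^ (q - 2) * t i0 ^ ((q - 1) * (q - 1))) * c ^ (q - 1) := by
      have h9 : nu t ^ (q - 1) = nu t ^ (q - 2) * nu t := by
        rw [← pow_succ]
        congr 1
        omega
      have h10 : (nu t * u) ^ (q - 2) = (ta * (c * t i0 ^ q)) ^ (q - 2) := by rw [hu']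
      rw [mul_pow] at h10
      have h11 : (ta * (c * t i0 ^ q)) ^ (q - 2) * (c * t i0) =
          ta ^ (q - 2) * t i0 ^ ((q - 1) * (q - 1)) * c ^ (q - 1) := by
        obtain ⟨r, rfl⟩ : ∃ r, q = r + 2 := ⟨q - 2, by omega⟩
        have e1 : r + 2 - 2 = r := by omega
        have e2 : r + 2 - 1 = r + 1 := by omega
        rw [e1, e2]
        have e3 : (r + 1) * (r + 1) = (r + 2) * r + 1 := by ring
        rw [e3, mul_pow, mul_pow, ← pow_mul, pow_succ (t i0) ((r + 2) * r), pow_succ c r]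
        ring
      calc nu t ^ (q - 1) * c ^ (q - 1) = nu t ^ (q - 2) * (c ^ (q - 1) * nu t) := by rw [h9]; ring
        _ = 2 * θ * ((nu t ^ (q - 2) * u ^ (q - 2)) * (c * t i0)) := by rw [h7]; ring
        _ = 2 * θ * ((ta * (c * t i0 ^ q)) ^ (q - 2) * (c * t i0)) := by rw [h10]
        _ = θ * (2 * ta ^ (q - 2) * t i0 ^ ((q - 1) * (q - 1))) * c ^ (q - 1) := by rw [h11]; ring
    have h9 := mul_right_cancel₀ hcq1 h8
    apply hcon.1
    refine ⟨t, ht, ?_⟩
    have h10 : 2 * ta ^ (q - 2) * t i0 ^ ((q - 1) * (q - 1)) ≠ 0 :=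
      mul_ne_zero (mul_ne_zero two_ne_zero (pow_ne_zero _ hta)) (pow_ne_zero _ hb)
    simp only
    rw [div_eq_iff h10]
    exact h9
  · exfalso
    have hμ0 : μ = 0 := (mul_eq_zero.mp h4).resolve_right hw0
    apply hw0
    refine (hns (u * w + hsq x) w x ?_).1
    intro o
    rcases o with _ | i
    · rw [h5, hμ0, zero_mul]
    · rw [h6 i, hμ0, zero_mul]

end

end EY
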