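import Pool.Agent.helper35.EY.FinE

set_option autoImplicit false
set_option linter.unusedSectionVars false
set_option linter.unusedSimpArgs false

/-!
# EY-FinS: finiteness of the eigenscheme of the step with `R = α u^a T^n w^j + β u^c w^s y^e`

`f = φ(Q; w, x) + α u^a Q^n w^j y² + β u^c w^s y^(e+2)`. For every `β` and all but finitely many `α`: if the local
length at `e_u` is finite and positive, then the eigenscheme of `f` is finite.
Conditions on `φ`: (i), (ii), (iii) (the last one only if `n ≠ 0`) and the E-scheme is finite.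
-/

namespace EY

open MvPolynomial

noncomputable section

variable {τ : Type} [Fintype τ] [DecidableEq τ]

/-- `R = α u^a T^n w^j + β u^c w^s y^e` -/
def RS (τ : Type) (a n j c s e : ℕ) (α β : ℂ) : MvPolynomial (Option (Option (Option (Option τ)))) ℂ :=
  C α * (X (some none) ^ a * X none ^ n * X (some (some none)) ^ j) +
    C β * (X (some none) ^ c * X (some (some none)) ^ s * X (some (some (some none))) ^ e)

theorem wh_RS {q a n j c s e : ℕ} {α β : ℂ} (h1 : a + 2 * n + j = q - 1) (h2 : β ≠ 0 → c + s + e = q - 1) :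
    wh (vT (Option (Option (Option τ)))) (q - 1) (RS τ a n j c s e α β) := by
  unfold RS
  refine wh_add ?_ ?_
  · have h3 := wh_C_mul α (wh_mul (wh_mul
      (wh_pow (wh_X (vT (Option (Option (Option τ)))) (some none)) a)
      (wh_pow (wh_X (vT (Option (Option (Option τ)))) none) n))
      (wh_pow (wh_X (vT (Option (Option (Option τ)))) (some (some none))) j))
    have h4 : vT (Option (Option (Option τ))) (some none) * a + vT (Option (Option (Option τ))) none * n +
        vT (Option (Option (Option τ))) (some (some none)) * j = q - 1 := by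
      have e1 : vT (Option (Option (Option τ))) (some none) = 1 := rfl
      have e2 : vT (Option (Option (Option τ))) none = 2 := rfl
      have e3 : vT (Option (Option (Option τ))) (some (some none)) = 1 := rfl
      rw [e1, e2, e3]
      omega
    rwa [h4] at h3
  · by_cases hβ : β = 0
    · rw [hβ, C_0, zero_mul]
      exact wh_zero _ _
    · have h3 := wh_C_mul β (wh_mul (wh_mul
        (wh_pow (wh_X (vT (Option (Option (Option τ)))) (some none)) c)
        (wh_pow (wh_X (vT (Option (Option (Option τ)))) (some (some none))) s))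
        (wh_pow (wh_X (vT (Option (Option (Option τ)))) (some (some (some none)))) e))
      have h4 : vT (Option (Option (Option τ))) (some none) * c +
          vT (Option (Option (Option τ))) (some (some none)) * s +
          vT (Option (Option (Option τ))) (some (some (some none))) * e = q - 1 := by
        have e1 : vT (Option (Option (Option τ))) (some none) = 1 := rfl
        have e2 : vT (Option (Option (Option τ))) (some (some (some none))) = 1 := rfl
        have e3 : vT (Option (Option (Option τ))) (some (some none)) = 1 := rfl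
        have := h2 hβ
        rw [e1, e2, e3]
        omega
      rwa [h4] at h3

theorem eval_RS (a n j c s e : ℕ) (α β : ℂ) (t u w : ℂ) (x : τ → ℂ) :
    eval (vecT t u w 0 x) (RS τ a n j c s e α β) =
      α * (u ^ a * t ^ n * w ^ j) + β * (u ^ c * w ^ s * 0 ^ e) := by
  unfold RS
  simp only [map_add, map_mul, map_pow, eval_C, eval_X]
  rfl

/-- the step `α u^a Q^n w^j y² + β u^c w^s y^(e+2)` -/
theorem sstep_finLines {q : ℕ} (hq : 2 ≤ q) {φ : MvPolynomial (Option (Option τ)) ℂ}
    (hφ : wh (vw τ) (q + 1) φ)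
    (hi : ∀ x : τ → ℂ, (∀ i, eval (vec (hsq x) 0 x) (pderiv (some (some i)) φ) = 0) → x = 0)
    (hii : ∀ (w : ℂ) (x : τ → ℂ), (∀ o, eval (vec (hsq x) w x) (pderiv (some o) φ) = 0) → w = 0)
    (a n j c s e : ℕ) (β : ℂ)
    (hiii : n ≠ 0 → ∀ (w : ℂ) (x : τ → ℂ), (∀ o, eval (vec 0 w x) (pderiv (some o) φ) = 0) → w = 0)
    (hE : Module.Finite ℂ (MvPolynomial (Option τ) ℂ ⧸ Ideal.span (Set.range (critOne φ))))
    (h1 : a + 2 * n + j = q - 1) (h2 : β ≠ 0 → c + s + e = q - 1) (h3 : β ≠ 0 → e = 0 → s ≠ 0) :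
    ∃ B : Set ℂ, B.Finite ∧ ∀ α ∉ B,
      mulAt (affIdeal (formR φ (RS τ a n j c s e α β)) (gram (Option τ)) (some none)) 0 ≠ 0 →
      FinLines (IsEig (formR φ (RS τ a n j c s e α β)) (gram (Option τ))) := by
  have hψ := classC_finLines' hq hφ hi hE
  obtain ⟨B, hB, H⟩ := classC_claim_step hq (fun s w x => eval (vec s w x) (pderiv (some none) φ))
    (fun i s w x => eval (vec s w x) (pderiv (some (some i)) φ)) (scale_deriv hφ none)
    (fun i => scale_deriv hφ (some i)) (Px φ) (Px_hom hφ) eval_Px hi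
    (fun w x h4 h5 => hii w x (by
      intro o
      rcases o with _ | i
      · exact h4
      · exact h5 i)) a n j c s (2 * β * 0 ^ e)
    (fun hn w x h4 h5 => hiii hn w x (by
      intro o
      rcases o with _ | i
      · exact h4
      · exact h5 i))
    (by
      refine (finite_crit φ hE).subset ?_
      rintro z ⟨h4, h5⟩ o
      rcases o with _ | i
      · exact h4
      · exact h5 i) h1
    (by
      intro hne
      have h4 : β ≠ 0 := by
        rintro rfl
        simp at hne
      have h5 : e = 0 := by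
        by_contra h6
        rw [zero_pow h6, mul_zero] at hne
        exact hne rfl
      have h6 := h2 h4
      omega)
    (by
      intro hne
      have h4 : β ≠ 0 := by
        rintro rfl
        simp at hne
      have h5 : e = 0 := by
        by_contra h6
        rw [zero_pow h6, mul_zero] at hne
        exact hne rfl
      exact h3 h4 h5)
  refine ⟨B, hB, fun α hα hmul => ?_⟩
  refine step_finLines (by omega) hφ (wh_RS h1 h2) hψ ?_ hmul
  intro u w x μ hμ h4 h5 h6
  refine H α hα u w x μ ?_ h4 h5 h6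
  rw [hμ, eval_RS]
  ring

/-! ### the steps `SHB`, `SHA` of the blueprint -/

theorem SHB_eq {q n E : ℕ} (hE : 2 ≤ E) (α β : ℂ) :
    SHB τ q n E α β = X (some (some (some none))) ^ 2 * RS τ (q - 1 - 2 * n) n 0 (q + 1 - E) 0 (E - 2) α β := by
  unfold SHB RS
  have h1 : (X (some (some (some none))) : MvPolynomial (Option (Option (Option (Option τ)))) ℂ) ^ E =
      X (some (some (some none))) ^ 2 * X (some (some (some none))) ^ (E - 2) := by
    rw [← pow_add]
    congr 1
    omega
  rw [h1, pow_zero]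
  ring

theorem SHA_eq {q n E : ℕ} (hE : E ≤ 2 * q) (α β : ℂ) :
    SHA τ q n E α β = X (some (some (some none))) ^ 2 * RS τ (q - 1 - 2 * n) n 0 0 (E - q - 1) (2 * q - E) α β := by
  unfold SHA RS
  have h1 : (X (some (some (some none))) : MvPolynomial (Option (Option (Option (Option τ)))) ℂ) ^ (2 * q + 2 - E) =
      X (some (some (some none))) ^ 2 * X (some (some (some none))) ^ (2 * q - E) := by
    rw [← pow_add]
    congr 1
    omega
  rw [h1, pow_zero]
  ring

section MSt

variable {q E₀ : ℕ} {φ : MvPolynomial (Option (Option τ)) ℂ}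

theorem hsq_eq (x : τ → ℂ) : hsq x = 1 / 2 * ∑ i, x i ^ 2 := by
  unfold hsq
  ring

theorem MSt.hi (h : MSt τ q E₀ φ) (x : τ → ℂ)
    (hx : ∀ i, eval (vec (hsq x) 0 x) (pderiv (some (some i)) φ) = 0) : x = 0 := by
  have h1 := h.mx (vec (hsq x) 0 x) (hsq_eq x) rfl hx
  funext i
  exact congrFun h1 (some (some i))

theorem MSt.hii (h : MSt τ q E₀ φ) (w : ℂ) (x : τ → ℂ)
    (hx : ∀ o, eval (vec (hsq x) w x) (pderiv (some o) φ) = 0) : w = 0 := by
  have h1 := h.m (vec (hsq x) w x) (hsq_eq x) hx
  exact congrFun h1 (some none)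

theorem St.hiii (h : St τ q E₀ φ) (w : ℂ) (x : τ → ℂ)
    (hx : ∀ o, eval (vec 0 w x) (pderiv (some o) φ) = 0) : w = 0 := by
  have h1 := h.nd (vec 0 w x) rfl hx
  exact congrFun h1 (some none)

/-- (M3, finiteness) -/
theorem MSt.projFin (h : MSt τ q E₀ φ) (hq : 2 ≤ q) : ProjFin {x | IsEig (formC φ) (gram τ) x} :=
  classC_finLines' hq h.wh h.hi h.fin

/-- (M5 for `SHB`) -/
theorem MSt.finB (h : MSt τ q E₀ φ) (hq : 2 ≤ q) {n E : ℕ} (hn : 2 * n + 1 ≤ q) (hE : 3 ≤ E) (hE' : E ≤ q + 1)
    (β : ℂ) (hmul : ∀ α : ℂ, α ≠ 0 →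
      mulAt (affIdeal (formS φ (SHB τ q n E α β)) (gram (Option τ)) (some none)) 0 ≠ 0) :
    {α : ℂ | ¬ ProjFin {x | IsEig (formS φ (SHB τ q n E α β)) (gram (Option τ)) x}}.Finite := by
  obtain ⟨B, hB, H⟩ := sstep_finLines hq h.wh h.hi h.hii (q - 1 - 2 * n) n 0 (q + 1 - E) 0 (E - 2) β
    (fun _ => h.toSt.hiii) h.fin (by omega) (fun _ => by omega) (fun _ h0 => by omega)
  refine (hB.union (Set.finite_singleton (0 : ℂ))).subset ?_
  intro α hα
  by_contra hcon
  rw [Set.mem_union, not_or, Set.mem_singleton_iff] at hcon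
  apply hα
  have h1 := H α hcon.1
  rw [formR_eq, ← SHB_eq (by omega)] at h1
  exact h1 (hmul α hcon.2)

/-- (M5 for `SHA`) -/
theorem MSt.finA (h : MSt τ q E₀ φ) (hq : 2 ≤ q) {n E : ℕ} (hn : 2 * n + 1 ≤ q) (hE : q + 2 ≤ E)
    (hE' : E ≤ 2 * q) (β : ℂ) (hmul : ∀ α : ℂ, α ≠ 0 →
      mulAt (affIdeal (formS φ (SHA τ q n E α β)) (gram (Option τ)) (some none)) 0 ≠ 0) :
    {α : ℂ | ¬ ProjFin {x | IsEig (formS φ (SHA τ q n E α β)) (gram (Option τ)) x}}.Finite := by
  obtain ⟨B, hB, H⟩ := sstep_finLines hq h.wh h.hi h.hii (q - 1 - 2 * n) n 0 0 (E - q - 1) (2 * q - E) β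
    (fun _ => h.toSt.hiii) h.fin (by omega) (fun _ => by omega) (fun _ h0 => by omega)
  refine (hB.union (Set.finite_singleton (0 : ℂ))).subset ?_
  intro α hα
  by_contra hcon
  rw [Set.mem_union, not_or, Set.mem_singleton_iff] at hcon
  apply hα
  have h1 := H α hcon.1
  rw [formR_eq, ← SHA_eq hE'] at h1
  exact h1 (hmul α hcon.2)

/-- the form of a step is homogeneous -/
theorem formS_SHB_hom (hφ : EY.wh (vw τ) (q + 1) φ) (hq : 1 ≤ q) {n E : ℕ} (hn : 2 * n + 1 ≤ q) (hE : 2 ≤ E)
    (hE' : E ≤ q + 1) (α β : ℂ) : (formS φ (SHB τ q n E α β)).IsHomogeneous (q + 1) := by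
  rw [SHB_eq hE, ← formR_eq]
  exact formR_hom hq hφ (wh_RS (by omega) (fun _ => by omega))

theorem formS_SHA_hom (hφ : EY.wh (vw τ) (q + 1) φ) (hq : 1 ≤ q) {n E : ℕ} (hn : 2 * n + 1 ≤ q)
    (hE : q + 2 ≤ E) (hE' : E ≤ 2 * q) (α β : ℂ) : (formS φ (SHA τ q n E α β)).IsHomogeneous (q + 1) := by
  rw [SHA_eq hE', ← formR_eq]
  exact formR_hom hq hφ (wh_RS (by omega) (fun _ => by omega))

/-- the class C form is homogeneous -/
theorem formC_hom (hφ : EY.wh (vw τ) (q + 1) φ) : (formC φ).IsHomogeneous (q + 1) := by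
  unfold formC
  apply wh_subN_qf
  have h1 : (rename (embC τ) : MvPolynomial (Option (Option τ)) ℂ →ₐ[ℂ] _) =
      aeval (fun o => (X (embC τ o) : MvPolynomial (Option (Option (Option τ))) ℂ)) := by
    apply MvPolynomial.algHom_ext
    intro o
    rw [rename_X, aeval_X]
  rw [h1]
  refine wh_aeval (v := vw τ) ?_ hφ
  intro o
  have h2 := wh_X (vT (Option (Option τ))) (embC τ o)
  rcases o with _ | o
  · exact h2
  · exact h2

end MSt

end

end EY
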