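import Pool.Agent.helper35.EY.FinC
import Pool.Agent.helper50.EY.ClassC

set_option autoImplicit false
set_option linter.unusedSectionVars false
set_option linter.unusedSimpArgs false

/-!
# EY-FinD: finiteness of the eigenscheme for class C forms and for the steps (polynomial version)

* `classC_finLines` (F1): `φ` weighted homogeneous of degree `q + 1`, (i), finite E-scheme ⟹
  `FinLines (IsEig (formC φ) (gram τ))`;
* `embY φ`: the form `φ` in the variables `T, u, y, w, x`; the form of a step is
  `stepF φ R = subN (qf (Option τ)) (embY φ + y² R)`, where the new variable `y` is `some (some none)`... see below;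
* `step_finLines` (F2).
-/

namespace EY

open MvPolynomial

noncomputable section

variable {τ : Type} [Fintype τ] [DecidableEq τ]

/-- the vector `(s; w, x)` -/
def vec (s w : ℂ) (x : τ → ℂ) : Option (Option τ) → ℂ := fun o => o.elim s fun o' => o'.elim w x

theorem vec_eta (v : Option (Option τ) → ℂ) : vec (v none) (v (some none)) (fun i => v (some (some i))) = v := by
  funext o
  rcases o with _ | _ | i <;> rfl

theorem vec_scale (c s w : ℂ) (x : τ → ℂ) :
    vec (c ^ 2 * s) (c * w) (c • x) = fun o => c ^ vw τ o * vec s w x o := by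
  funext o
  rcases o with _ | _ | i <;> simp [vec, vw]

theorem smul_vec (c s w : ℂ) (x : τ → ℂ) : c • vec s w x = vec (c * s) (c * w) (c • x) := by
  funext o
  rcases o with _ | _ | i <;> simp [vec]

theorem eval_wh {σ : Type*} [Fintype σ] {v : σ → ℕ} {n : ℕ} {ψ : MvPolynomial σ ℂ} (h : wh v n ψ) (c : ℂ)
    (y : σ → ℂ) : eval (fun i => c ^ v i * y i) ψ = c ^ n * eval y ψ := by
  exact aeval_wh h c y

theorem eval_subN' {τ : Type*} (c : MvPolynomial τ ℂ) (v : τ → ℂ) (F : MvPolynomial (Option τ) ℂ) :
    eval v (subN c F) = eval (fun o => o.elim (eval v c) v) F :=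
  eval_subN c (fun o => o.elim (eval v c) v) rfl F

theorem eval_qf (u w : ℂ) (x : τ → ℂ) : eval (vec u w x) (qf τ) = u * w + hsq x := by
  unfold qf hsq
  simp only [map_add, map_mul, eval_X, eval_C, map_sum, map_pow]
  simp only [vec, Option.elim]
  ring

/-- values of a polynomial in `σ, w, x` at `σ = u w + |x|²/2` -/
theorem eval_embC (ψ : MvPolynomial (Option (Option τ)) ℂ) (u w : ℂ) (x : τ → ℂ) :
    eval (vec u w x) (subN (qf τ) (rename (embC τ) ψ)) = eval (vec (u * w + hsq x) w x) ψ := by
  rw [eval_subN', eval_rename, eval_qf]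
  congr 2
  funext o
  rcases o with _ | _ | i <;> rfl

theorem eval_slq (u w : ℂ) (x : τ → ℂ) (j : Option (Option τ)) : eval (vec u w x) (slq j) = vec w u x j := by
  rcases j with _ | _ | i <;> simp [slq, vec]

theorem pderiv_formC_none (φ : MvPolynomial (Option (Option τ)) ℂ) (u w : ℂ) (x : τ → ℂ) :
    eval (vec u w x) (pderiv none (formC φ)) = w * eval (vec (u * w + hsq x) w x) (pderiv none φ) := by
  unfold formC
  have h1 : pderiv (some none) (rename (embC τ) φ) = 0 := by
    apply pderiv_eq_zero_of_notMem_vars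
    intro hmem
    obtain ⟨o, _, ho⟩ := Finset.mem_image.mp (vars_rename (embC τ) φ hmem)
    rcases o with _ | o <;> simp [embC] at ho
  have h2 : pderiv none (rename (embC τ) φ) = rename (embC τ) (pderiv none φ) := by
    have h3 : (none : Option (Option (Option τ))) = embC τ none := rfl
    conv_lhs => rw [h3]
    exact pderiv_rename (embC_inj (τ := τ)) none φ
  rw [pderiv_subN, h1, h2, map_zero, zero_add, map_mul, pderiv_qf, eval_slq, eval_embC]
  rfl

theorem pderiv_formC_some (φ : MvPolynomial (Option (Option τ)) ℂ) (u w : ℂ) (x : τ → ℂ) (o : Option τ) :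
    eval (vec u w x) (pderiv (some o) (formC φ)) = eval (vec (u * w + hsq x) w x) (pderiv (some o) φ) +
      vec w u x (some o) * eval (vec (u * w + hsq x) w x) (pderiv none φ) := by
  unfold formC
  have h1 : pderiv (some (some o)) (rename (embC τ) φ) = rename (embC τ) (pderiv (some o) φ) := by
    have h3 : (some (some o) : Option (Option (Option τ))) = embC τ (some o) := rfl
    rw [h3]
    exact pderiv_rename (embC_inj (τ := τ)) (some o) φ
  have h2 : pderiv none (rename (embC τ) φ) = rename (embC τ) (pderiv none φ) := by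
    have h3 : (none : Option (Option (Option τ))) = embC τ none := rfl
    conv_lhs => rw [h3]
    exact pderiv_rename (embC_inj (τ := τ)) none φ
  rw [pderiv_subN, h1, h2, map_add, map_mul, pderiv_qf, eval_slq, eval_embC, eval_embC]

/-- eigenvalue -/
theorem IsEig.exists_mul {κ : Type} [Fintype κ] {f : MvPolynomial κ ℂ} {S : Matrix κ κ ℂ} {v : κ → ℂ}
    (h : IsEig f S v) (j : κ) (hj : eval v (sl S j) ≠ 0) :
    ∃ lam : ℂ, ∀ k, eval v (pderiv k f) = lam * eval v (sl S k) := by
  refine ⟨eval v (pderiv j f) / eval v (sl S j), fun k => ?_⟩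
  have h1 := h j k
  rw [map_sub, map_mul, map_mul] at h1
  field_simp
  linear_combination h1

theorem IsEig.exists_lam {f : MvPolynomial (Option (Option τ)) ℂ} {v : Option (Option τ) → ℂ}
    (h : IsEig f (gram τ) v) (hv : v ≠ 0) :
    ∃ lam : ℂ, ∀ k, eval v (pderiv k f) = lam * eval v (slq k) := by
  have hex : ∃ j, eval v (sl (gram τ) j) ≠ 0 := by
    by_contra hcon
    push Not at hcon
    apply hv
    have h1 := hcon none
    have h2 := hcon (some none)
    rw [sl_gram] at h1 h2
    funext o
    rcases o with _ | _ | i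
    · simpa [slq] using h2
    · simpa [slq] using h1
    · have h3 := hcon (some (some i))
      rw [sl_gram] at h3
      simpa [slq] using h3
  obtain ⟨j, hj⟩ := hex
  obtain ⟨lam, hlam⟩ := h.exists_mul j hj
  exact ⟨lam, fun k => by rw [hlam k, sl_gram]⟩

/-- the equations `φ_w = μ u`, `φ_x = μ x`, `μ w = 0` for the eigenvectors of a class C form -/
theorem eig_formC {φ : MvPolynomial (Option (Option τ)) ℂ} {u w : ℂ} {x : τ → ℂ} {lam : ℂ}
    (h : ∀ k, eval (vec u w x) (pderiv k (formC φ)) = lam * eval (vec u w x) (slq k)) :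
    ∃ μ : ℂ, μ = lam - eval (vec (u * w + hsq x) w x) (pderiv none φ) ∧ μ * w = 0 ∧
      eval (vec (u * w + hsq x) w x) (pderiv (some none) φ) = μ * u ∧
      ∀ i, eval (vec (u * w + hsq x) w x) (pderiv (some (some i)) φ) = μ * x i := by
  refine ⟨_, rfl, ?_, ?_, ?_⟩
  · have h1 := h none
    rw [pderiv_formC_none, eval_slq] at h1
    change _ = lam * w at h1
    linear_combination -h1
  · have h1 := h (some none)
    rw [pderiv_formC_some, eval_slq] at h1
    change _ + u * _ = lam * u at h1
    linear_combination h1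
  · intro i
    have h1 := h (some (some i))
    rw [pderiv_formC_some, eval_slq] at h1
    change _ + x i * _ = lam * x i at h1
    linear_combination h1

section scale

variable {φ : MvPolynomial (Option (Option τ)) ℂ} {q : ℕ} (hφ : wh (vw τ) (q + 1) φ)

include hφ in
theorem scale_deriv (o : Option τ) (c s w : ℂ) (x : τ → ℂ) :
    eval (vec (c ^ 2 * s) (c * w) (c • x)) (pderiv (some o) φ) = c ^ q * eval (vec s w x) (pderiv (some o) φ) := by
  rw [vec_scale]
  exact eval_wh (wh_pderiv hφ (some o) q rfl) c _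

/-- `φ_{x_i}(|x|²/2; 0, x)` -/
def Px (φ : MvPolynomial (Option (Option τ)) ℂ) (i : τ) : MvPolynomial τ ℂ :=
  aeval (fun o : Option (Option τ) => o.elim (C (1 / 2) * ∑ j : τ, X j ^ 2) fun o' => o'.elim 0 X)
    (pderiv (some (some i)) φ)

theorem eval_Px (i : τ) (x : τ → ℂ) : eval x (Px φ i) = eval (vec (hsq x) 0 x) (pderiv (some (some i)) φ) := by
  unfold Px
  have h1 : ∀ p : MvPolynomial (Option (Option τ)) ℂ,
      eval x (aeval (fun o : Option (Option τ) => o.elim (C (1 / 2) * ∑ j : τ, X j ^ 2) fun o' => o'.elim 0 X) p) =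
      eval (vec (hsq x) 0 x) p := by
    intro p
    induction p using MvPolynomial.induction_on with
    | C a => simp
    | add p q hp hq => rw [map_add, map_add, hp, hq, map_add]
    | mul_X p o hp =>
      rw [map_mul, map_mul, hp, map_mul, aeval_X, eval_X]
      congr 1
      rcases o with _ | _ | i
      · simp only [Option.elim, vec, hsq, map_mul, eval_C, map_sum, map_pow, eval_X]
        ring
      · simp [vec]
      · simp [vec]
  exact h1 _

theorem isHomogeneous_of_wh {σ : Type*} [Fintype σ] {n : ℕ} {ψ : MvPolynomial σ ℂ} (h : wh (fun _ => 1) n ψ) :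
    ψ.IsHomogeneous n := by
  intro α hα
  have h1 := h α hα
  unfold wd at h1
  rw [Finsupp.weight_apply, Finsupp.sum_fintype _ _ (fun _ => by simp)]
  simpa using h1

include hφ in
theorem Px_hom (i : τ) : (Px φ i).IsHomogeneous q := by
  apply isHomogeneous_of_wh
  refine wh_aeval (v := vw τ) ?_ (wh_pderiv hφ (some (some i)) q rfl)
  intro o
  rcases o with _ | _ | j
  · have h1 := wh_C_mul (w := fun _ : τ => 1) (1 / 2 : ℂ) (wh_sum (s := 2) Finset.univ
      (f := fun j : τ => (X j ^ 2 : MvPolynomial τ ℂ)) fun j _ => wh_pow (wh_X (fun _ => 1) j) 2)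
    exact h1
  · exact wh_zero _ _
  · exact wh_X (fun _ => 1) j

/-- (F1) -/
theorem classC_finLines (hq : 2 ≤ q) (hφ : wh (vw τ) (q + 1) φ)
    (hi : ∀ x : τ → ℂ, (∀ i, eval (vec (hsq x) 0 x) (pderiv (some (some i)) φ) = 0) → x = 0)
    (hE : {z : ℂ × (τ → ℂ) | ∀ o : Option τ, eval (vec z.1 1 z.2) (pderiv (some o) φ) = 0}.Finite) :
    FinLines (IsEig (formC φ) (gram τ)) := by
  obtain ⟨T, hT, H⟩ := classC_lines hq (fun s w x => eval (vec s w x) (pderiv (some none) φ))
    (fun i s w x => eval (vec s w x) (pderiv (some (some i)) φ)) (scale_deriv hφ none)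
    (fun i => scale_deriv hφ (some i)) (Px φ) (Px_hom hφ) eval_Px hi (by
      refine hE.subset ?_
      rintro z ⟨h1, h2⟩ o
      rcases o with _ | i
      · exact h1
      · exact h2 i)
  refine ⟨insert 0 ((fun t : ℂ × ℂ × (τ → ℂ) => vec t.1 t.2.1 t.2.2) '' T), (hT.image _).insert _, ?_⟩
  intro v hv
  by_cases hv0 : v = 0
  · exact ⟨0, Set.mem_insert _ _, 0, by rw [hv0, smul_zero]⟩
  · obtain ⟨lam, hlam⟩ := hv.exists_lam hv0
    rw [← vec_eta v] at hlam
    obtain ⟨μ, -, h1, h2, h3⟩ := eig_formC hlam
    obtain ⟨t, ht, c, hc⟩ := H _ _ _ μ h1 h2 h3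
    refine ⟨_, Set.mem_insert_of_mem _ ⟨t, ht, rfl⟩, c, ?_⟩
    rw [← vec_eta v]
    simp only [smul_vec]
    have h4 := congrArg Prod.fst hc
    have h5 := congrArg (fun z => z.2.1) hc
    have h6 := congrArg (fun z => z.2.2) hc
    simp only [Prod.smul_fst, Prod.smul_snd, smul_eq_mul] at h4 h5 h6
    rw [h4, h5, h6]

end scale

end

end EY
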