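import Pool.Agent.helper81.EY.IDef
import Pool.Agent.helper35.EY.FinD

set_option autoImplicit false
set_option linter.unusedSectionVars false

/-!
# EY-EF: finiteness of the eigenscheme of the E-form
-/

namespace EY

open MvPolynomial

noncomputable section

variable {τ : Type} [Fintype τ] [DecidableEq τ] {q M : ℕ} {P : MvPolynomial (Option τ) ℂ} {S : Finset (τ → ℂ)}

/-- eigenvalue of the vector `s` (`0` if `s` is not an eigenvector) -/
def ev35 {κ : Type} (P : MvPolynomial κ ℂ) (s : κ → ℂ) : ℂ :=
  open Classical in if h : ∃ nu : ℂ, ∀ i, eval s (pderiv i P) = nu * s i then h.choose else 0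

theorem ev35_spec {κ : Type} {P : MvPolynomial κ ℂ} {s : κ → ℂ}
    (h : ∃ nu : ℂ, ∀ i, eval s (pderiv i P) = nu * s i) (i : κ) :
    eval s (pderiv i P) = ev35 P s * s i := by
  have h1 : ev35 P s = h.choose := dif_pos h
  rw [h1]
  exact h.choose_spec i

/-- scaling of an eigenvector: `x = c s` -/
theorem ev35_scale {κ : Type} [Fintype κ] {P : MvPolynomial κ ℂ} {q : ℕ} (hq : 1 ≤ q)
    (hP : P.IsHomogeneous (q + 1)) {x s : κ → ℂ} {lam c : ℂ} (hx : ∀ i, eval x (pderiv i P) = lam * x i)
    (hc : x = c • s) (hx0 : x ≠ 0) :
    c ≠ 0 ∧ (∀ i, eval s (pderiv i P) = ev35 P s * s i) ∧ lam = c ^ (q - 1) * ev35 P s := by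
  have hc0 : c ≠ 0 := by
    rintro rfl
    rw [zero_smul] at hc
    exact hx0 hc
  have hsc : ∀ i, eval x (pderiv i P) = c ^ q * eval s (pderiv i P) := by
    intro i
    rw [hc]
    exact eval_smul_hom (hP.pderiv (i := i)) c s
  have hex : ∃ nu : ℂ, ∀ i, eval s (pderiv i P) = nu * s i := by
    refine ⟨(c ^ q)⁻¹ * lam * c, fun i => ?_⟩
    have h7 := hsc i
    rw [hx i, hc, Pi.smul_apply, smul_eq_mul] at h7
    have h8 : c ^ q ≠ 0 := pow_ne_zero _ hc0
    field_simp
    linear_combination -h7
  have hnu := ev35_spec hex
  refine ⟨hc0, hnu, ?_⟩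
  have hex2 : ∃ i, s i ≠ 0 := by
    by_contra hall
    push Not at hall
    apply hx0
    rw [hc]
    funext i
    simp [hall i]
  obtain ⟨i, hi⟩ := hex2
  have h7 := hsc i
  have hq1 : c ^ q = c ^ (q - 1) * c := by
    rw [← pow_succ]
    congr 1
    omega
  rw [hx i, hnu i, hc, Pi.smul_apply, smul_eq_mul, hq1] at h7
  have h8 : c * s i ≠ 0 := mul_ne_zero hc0 hi
  have h9 : (lam - c ^ (q - 1) * ev35 P s) * (c * s i) = 0 := by linear_combination h7
  exact sub_eq_zero.mp ((mul_eq_zero.mp h9).resolve_right h8)

theorem inj35 : Function.Injective (fun o : Option τ => (some (some o) : Option (Option (Option τ)))) := by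
  intro a b h
  simpa using h

theorem eform_pd_u35 (q : ℕ) (t : ℂ) (P : MvPolynomial (Option τ) ℂ) : pderiv none (eform q t P) = 0 := by
  unfold eform
  have h0 : pderiv none (rename (fun o : Option τ => (some (some o) : Option (Option (Option τ)))) P) = 0 := by
    apply pderiv_eq_zero_of_notMem_vars
    intro hmem
    obtain ⟨o, _, ho⟩ := Finset.mem_image.mp (vars_rename (fun o : Option τ => some (some o)) P hmem)
    simp at ho
  rw [map_add, map_add, h0, Derivation.leibniz, Derivation.leibniz, Derivation.leibniz_pow,
    Derivation.leibniz_pow, pderiv_C, pderiv_X_of_ne (by simp), pderiv_X_of_ne (by simp)]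
  simp

theorem eform_pd_w35 (q : ℕ) (t : ℂ) (P : MvPolynomial (Option τ) ℂ) (v : Option (Option (Option τ)) → ℂ) :
    eval v (pderiv (some none) (eform q t P)) =
      t * v (some (some none)) ^ q + ((q : ℂ) + 1) * v (some none) ^ q := by
  unfold eform
  have h0 : pderiv (some none) (rename (fun o : Option τ => (some (some o) : Option (Option (Option τ)))) P) = 0 := by
    apply pderiv_eq_zero_of_notMem_vars
    intro hmem
    obtain ⟨o, _, ho⟩ := Finset.mem_image.mp (vars_rename (fun o : Option τ => some (some o)) P hmem)
    simp at ho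
  simp only [map_add]
  rw [h0, Derivation.leibniz, Derivation.leibniz, Derivation.leibniz_pow,
    Derivation.leibniz_pow, pderiv_C, pderiv_X_self, pderiv_X_of_ne (by simp)]
  simp

theorem eform_pd_x35 (q : ℕ) (t : ℂ) (P : MvPolynomial (Option τ) ℂ) (v : Option (Option (Option τ)) → ℂ)
    (hv : v (some none) = 0) (o : Option τ) :
    eval v (pderiv (some (some o)) (eform q t P)) = eval (fun o => v (some (some o))) (pderiv o P) := by
  unfold eform
  have h0 : pderiv (some (some o)) (rename (fun o : Option τ => (some (some o) : Option (Option (Option τ)))) P) =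
      rename (fun o : Option τ => (some (some o) : Option (Option (Option τ)))) (pderiv o P) :=
    pderiv_rename inj35 o P
  simp only [map_add]
  rw [h0, Derivation.leibniz, Derivation.leibniz, Derivation.leibniz_pow (pderiv (some (some o))) (X (some none)),
    pderiv_C, pderiv_X_of_ne (R := ℂ) (show (some none : Option (Option (Option τ))) ≠ some (some o) by simp)]
  simp only [map_add, eval_rename, smul_zero, add_zero, smul_eq_mul, map_mul, eval_X, hv, mul_zero, zero_mul,
    map_zero]
  rfl

theorem eform_fin35 (hq : 2 ≤ q) (h : IQD q τ P S M) (t : ℂ) (_ht : t ≠ 0)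
    (hs : ∀ v : Option (Option (Option τ)) → ℂ, IsSing (eform q t P) v →
      ∀ o : Option (Option τ), v (some o) = 0) :
    FinLines (IsEig (eform q t P) (gram (Option τ))) := by
  obtain ⟨T, hT, hT'⟩ := h.fin
  refine ⟨insert 0 (insert (fun o : Option (Option (Option τ)) => o.elim 1 fun _ => 0)
    ((fun s : Option τ → ℂ => vec (t * s none ^ q / ev35 P s) 0 s) '' T)),
    ((hT.image _).insert _).insert _, ?_⟩
  intro v hv
  by_cases hv0 : v = 0
  · exact ⟨0, Set.mem_insert _ _, 0, by rw [hv0, smul_zero]⟩
  · obtain ⟨lam, hlam⟩ := hv.exists_lam hv0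
    have h1 := hlam none
    rw [eform_pd_u35, map_zero] at h1
    have hsl : eval v (slq (none : Option (Option (Option τ)))) = v (some none) := by simp [slq]
    rw [hsl] at h1
    by_cases hl : lam = 0
    · have h2 : IsSing (eform q t P) v := by
        intro i
        rw [hlam i, hl, zero_mul]
      have h3 := hs v h2
      refine ⟨_, Set.mem_insert_of_mem _ (Set.mem_insert _ _), v none, ?_⟩
      funext o
      rcases o with _ | o
      · simp
      · simp [h3 o]
    · have hw : v (some none) = 0 := (mul_eq_zero.mp h1.symm).resolve_left hl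
      set x : Option τ → ℂ := fun o => v (some (some o)) with hx
      have hPx : ∀ o, eval x (pderiv o P) = lam * x o := by
        intro o
        have h2 := hlam (some (some o))
        rw [eform_pd_x35 q t P v hw o] at h2
        rw [h2]
        simp [slq, hx]
      have hW := hlam (some none)
      rw [eform_pd_w35, hw, zero_pow (by omega), mul_zero, add_zero] at hW
      have hsl2 : eval v (slq (some none : Option (Option (Option τ)))) = v none := by simp [slq]
      rw [hsl2] at hW
      have hx0 : x ≠ 0 := by
        intro hx0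
        apply hv0
        have h2 : v (some (some none)) = 0 := congrFun hx0 none
        rw [h2, zero_pow (by omega), mul_zero] at hW
        have h3 : v none = 0 := (mul_eq_zero.mp hW.symm).resolve_left hl
        funext o
        rcases o with _ | _ | o
        · exact h3
        · exact hw
        · exact congrFun hx0 o
      have hEV : IsEV P x := by
        intro i j
        rw [hPx i, hPx j]
        ring
      obtain ⟨s, hsT, c, hc⟩ := hT' x hEV
      obtain ⟨hc0, hnu, hlc⟩ := ev35_scale (by omega) h.hom hPx hc hx0
      have hnu0 : ev35 P s ≠ 0 := by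
        intro h2
        rw [h2, mul_zero] at hlc
        exact hl hlc
      refine ⟨_, Set.mem_insert_of_mem _ (Set.mem_insert_of_mem _ ⟨s, hsT, rfl⟩), c, ?_⟩
      have hveta : v = vec (v none) 0 x := by
        funext o
        rcases o with _ | _ | o
        · rfl
        · exact hw
        · rfl
      rw [hveta]
      simp only [smul_vec, mul_zero]
      have hb : v (some (some none)) = c * s none := by
        have h2 := congrFun hc none
        rw [Pi.smul_apply, smul_eq_mul] at h2
        exact h2
      have hu : v none = c * (t * s none ^ q / ev35 P s) := by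
        rw [hb, hlc] at hW
        have hq1 : c ^ q = c ^ (q - 1) * c := by
          rw [← pow_succ]
          congr 1
          omega
        rw [mul_pow, hq1] at hW
        have hcq : c ^ (q - 1) ≠ 0 := pow_ne_zero _ hc0
        have h2 : c ^ (q - 1) * (ev35 P s * v none - c * (t * s none ^ q)) = 0 := by linear_combination -hW
        have h3 := (mul_eq_zero.mp h2).resolve_left hcq
        field_simp
        linear_combination h3
      rw [hu, hc]

end

end EY
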