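import Pool.Agent.helper35.EY.FinL

set_option autoImplicit false
set_option linter.unusedSectionVars false

/-!
# EY-FinC: finiteness for class C states and for the steps, in terms of values

`Fw s w x`, `Fx i s w x` are the values of the partial derivatives `Φ_w`, `Φ_{x_i}` of a weighted form
`Φ(σ;w,x)` (weights `2;1,1`), homogeneous of weight `q`; `hsq x = |x|²/2`.

* `classC_lines` (F1): the solutions `(u,w,x)` of `μ w = 0`, `Φ_w = μ u`, `Φ_x = μ x` at `σ = uw + |x|²/2` lie on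
  finitely many lines;
* `classC_claim`, `classC_claim_step` (F2): for all but finitely many `α`, the solutions with
  `μ = 2 α u^a σ^n w^j + β u^c w^s` are the multiples of `(1,0,0)`.
-/

namespace EY

open MvPolynomial

noncomputable section

variable {τ : Type*} [Fintype τ]

/-- half the sum of the squares -/
def hsq (x : τ → ℂ) : ℂ := (∑ i, x i ^ 2) / 2

theorem hsq_smul (c : ℂ) (x : τ → ℂ) : hsq (c • x) = c ^ 2 * hsq x := by
  unfold hsq
  simp only [Pi.smul_apply, smul_eq_mul, mul_pow]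
  rw [← Finset.mul_sum]
  ring

theorem hsq_zero : hsq (0 : τ → ℂ) = 0 := by
  unfold hsq
  simp

/-- the solutions of `P_i(x) = x_i` are finitely many if the forms `P_i` of degree `q ≥ 2` have only the zero `0` -/
theorem finite_fixed {q : ℕ} (hq2 : 2 ≤ q) (P : τ → MvPolynomial τ ℂ) (hP : ∀ i, (P i).IsHomogeneous q)
    (hi : ∀ x : τ → ℂ, (∀ i, eval x (P i) = 0) → x = 0) :
    {x : τ → ℂ | ∀ i, eval x (P i) = x i}.Finite := by
  have h1 := finLines_of_hyperplane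
    (Set.range fun i : τ => (X none ^ (q - 1) * X (some i) - rename some (P i) : MvPolynomial (Option τ) ℂ))
    (by
      rintro _ ⟨i, rfl⟩
      refine ⟨q, IsHomogeneous.sub ?_ (hP i).rename_isHomogeneous⟩
      have h2 := ((isHomogeneous_X ℂ (none : Option τ)).pow (q - 1)).mul (isHomogeneous_X ℂ (some i))
      have h3 : 1 * (q - 1) + 1 = q := by omega
      rwa [h3] at h2) one_pos (isHomogeneous_X ℂ (none : Option τ)) (by
      intro v hv hv0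
      rw [eval_X] at hv0
      have h2 : (fun i => v (some i)) = 0 := by
        apply hi
        intro i
        have h3 := hv _ ⟨i, rfl⟩
        rw [map_sub, map_mul, map_pow, eval_X, hv0, zero_pow (by omega), zero_mul, zero_sub, neg_eq_zero,
          eval_rename] at h3
        exact h3
      funext o
      cases o with
      | none => exact hv0
      | some i => exact congrFun h2 i)
  refine Set.Finite.of_finite_image (f := fun q : τ → ℂ => (fun o : Option τ => o.elim 1 q)) ?_ ?_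
  · refine (h1.finite_chart none).subset ?_
    rintro _ ⟨x, hx, rfl⟩
    refine ⟨?_, rfl⟩
    rintro _ ⟨i, rfl⟩
    rw [map_sub, map_mul, map_pow, eval_X, eval_X, eval_rename]
    have h2 : ((fun o : Option τ => o.elim 1 x) ∘ some) = x := rfl
    rw [h2, hx i]
    simp
  · intro q _ q' _ hqq
    funext k
    exact congrFun hqq (some k)

/-- scaling to `w = 1` -/
theorem scale_w {q : ℕ} {F : ℂ → ℂ → (τ → ℂ) → ℂ}
    (hF : ∀ (c s w : ℂ) (x : τ → ℂ), F (c ^ 2 * s) (c * w) (c • x) = c ^ q * F s w x)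
    {s w : ℂ} {x : τ → ℂ} (hw : w ≠ 0) (h : F s w x = 0) : F (w⁻¹ ^ 2 * s) 1 (w⁻¹ • x) = 0 := by
  have h1 := hF w⁻¹ s w x
  rw [inv_mul_cancel₀ hw, h, mul_zero] at h1
  exact h1

/-- (F1) -/
theorem classC_lines {q : ℕ} (hq2 : 2 ≤ q) (Fw : ℂ → ℂ → (τ → ℂ) → ℂ) (Fx : τ → ℂ → ℂ → (τ → ℂ) → ℂ)
    (hFw : ∀ (c s w : ℂ) (x : τ → ℂ), Fw (c ^ 2 * s) (c * w) (c • x) = c ^ q * Fw s w x)
    (hFx : ∀ (i : τ) (c s w : ℂ) (x : τ → ℂ), Fx i (c ^ 2 * s) (c * w) (c • x) = c ^ q * Fx i s w x)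
    (P : τ → MvPolynomial τ ℂ) (hP : ∀ i, (P i).IsHomogeneous q) (hPe : ∀ i x, eval x (P i) = Fx i (hsq x) 0 x)
    (hi : ∀ x : τ → ℂ, (∀ i, Fx i (hsq x) 0 x = 0) → x = 0)
    (hE : {z : ℂ × (τ → ℂ) | Fw z.1 1 z.2 = 0 ∧ ∀ i, Fx i z.1 1 z.2 = 0}.Finite) :
    ∃ T : Set (ℂ × ℂ × (τ → ℂ)), T.Finite ∧ ∀ (u w : ℂ) (x : τ → ℂ) (μ : ℂ), μ * w = 0 →
      Fw (u * w + hsq x) w x = μ * u → (∀ i, Fx i (u * w + hsq x) w x = μ * x i) →
      ∃ t ∈ T, ∃ c : ℂ, (u, w, x) = c • t := by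
  have hZ := finite_fixed hq2 P hP (fun x hx => hi x fun i => by rw [← hPe]; exact hx i)
  refine ⟨{(1, 0, 0)} ∪ (fun z : ℂ × (τ → ℂ) => (z.1 - hsq z.2, (1 : ℂ), z.2)) ''
      {z : ℂ × (τ → ℂ) | Fw z.1 1 z.2 = 0 ∧ ∀ i, Fx i z.1 1 z.2 = 0} ∪
      (fun x : τ → ℂ => (Fw (hsq x) 0 x, (0 : ℂ), x)) '' {x : τ → ℂ | ∀ i, eval x (P i) = x i},
    ((Set.finite_singleton _).union (hE.image _)).union (hZ.image _), ?_⟩
  intro u w x μ hμw h1 h2
  by_cases hw : w = 0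
  · subst hw
    rw [mul_zero, zero_add] at h1 h2
    by_cases hμ : μ = 0
    · subst hμ
      have hx : x = 0 := hi x fun i => by rw [h2 i, zero_mul]
      refine ⟨(1, 0, 0), Or.inl (Or.inl rfl), u, ?_⟩
      rw [hx]
      simp
    · obtain ⟨c, hc⟩ := IsAlgClosed.exists_pow_nat_eq μ⁻¹ (n := q - 1) (by omega)
      have hc0 : c ≠ 0 := by
        rintro rfl
        rw [zero_pow (by omega)] at hc
        exact (inv_ne_zero hμ) hc.symm
      have hcq : c ^ q * μ = c := by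
        have h3 : q = (q - 1) + 1 := by omega
        rw [h3, pow_succ, hc]
        field_simp
      have h3 : ∀ i, eval (c • x) (P i) = (c • x) i := by
        intro i
        rw [hPe, hsq_smul]
        have h4 := hFx i c (hsq x) 0 x
        rw [mul_zero] at h4
        rw [h4, h2 i, ← mul_assoc, hcq, Pi.smul_apply, smul_eq_mul]
      refine ⟨(Fw (hsq (c • x)) 0 (c • x), 0, c • x), Or.inr ⟨c • x, h3, rfl⟩, c⁻¹, ?_⟩
      have h4 := hFw c (hsq x) 0 x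
      rw [mul_zero] at h4
      rw [hsq_smul, h4, h1, ← mul_assoc, hcq]
      simp only [Prod.smul_mk, smul_eq_mul, smul_smul, inv_mul_cancel₀ hc0, mul_zero, one_smul]
      rw [← mul_assoc, inv_mul_cancel₀ hc0, one_mul]
  · have hμ : μ = 0 := (mul_eq_zero.mp hμw).resolve_right hw
    subst hμ
    rw [zero_mul] at h1
    simp only [zero_mul] at h2
    refine ⟨(w⁻¹ ^ 2 * (u * w + hsq x) - hsq (w⁻¹ • x), 1, w⁻¹ • x), Or.inl (Or.inr
      ⟨(w⁻¹ ^ 2 * (u * w + hsq x), w⁻¹ • x), ⟨scale_w hFw hw h1, fun i => scale_w (hFx i) hw (h2 i)⟩, rfl⟩),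
      w, ?_⟩
    simp only [Prod.smul_mk, smul_eq_mul, smul_smul, mul_inv_cancel₀ hw, mul_one, one_smul, hsq_smul]
    have h3 : w * (w⁻¹ ^ 2 * (u * w + hsq x) - w⁻¹ ^ 2 * hsq x) = u := by
      field_simp
      ring
    rw [h3]

/-- (F2), general: the multiplier is `α M + N`, `M ≠ 0` at the critical points with `w ≠ 0` -/
theorem classC_claim {q : ℕ} (hq2 : 2 ≤ q) (Fw : ℂ → ℂ → (τ → ℂ) → ℂ) (Fx : τ → ℂ → ℂ → (τ → ℂ) → ℂ)
    (hFw : ∀ (c s w : ℂ) (x : τ → ℂ), Fw (c ^ 2 * s) (c * w) (c • x) = c ^ q * Fw s w x)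
    (hFx : ∀ (i : τ) (c s w : ℂ) (x : τ → ℂ), Fx i (c ^ 2 * s) (c * w) (c • x) = c ^ q * Fx i s w x)
    (P : τ → MvPolynomial τ ℂ) (hP : ∀ i, (P i).IsHomogeneous q) (hPe : ∀ i x, eval x (P i) = Fx i (hsq x) 0 x)
    (hi : ∀ x : τ → ℂ, (∀ i, Fx i (hsq x) 0 x = 0) → x = 0)
    (hE : {z : ℂ × (τ → ℂ) | Fw z.1 1 z.2 = 0 ∧ ∀ i, Fx i z.1 1 z.2 = 0}.Finite)
    (M N : ℂ → ℂ → (τ → ℂ) → ℂ)
    (hM : ∀ (c u w : ℂ) (x : τ → ℂ), M (c * u) (c * w) (c • x) = c ^ (q - 1) * M u w x)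
    (hN : ∀ (c u w : ℂ) (x : τ → ℂ), N (c * u) (c * w) (c • x) = c ^ (q - 1) * N u w x)
    (hN0 : ∀ (u : ℂ) (x : τ → ℂ), N u 0 x = 0)
    (hM1 : ∀ (u w : ℂ) (x : τ → ℂ), w ≠ 0 → Fw (u * w + hsq x) w x = 0 →
      (∀ i, Fx i (u * w + hsq x) w x = 0) → M u w x ≠ 0) :
    ∃ B : Set ℂ, B.Finite ∧ ∀ α ∉ B, ∀ (u w : ℂ) (x : τ → ℂ) (μ : ℂ),
      μ = α * M u w x + N u w x → μ * w = 0 →
      Fw (u * w + hsq x) w x = μ * u → (∀ i, Fx i (u * w + hsq x) w x = μ * x i) → w = 0 ∧ x = 0 := by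
  have hZ := finite_fixed hq2 P hP (fun x hx => hi x fun i => by rw [← hPe]; exact hx i)
  refine ⟨{0} ∪ (fun z : ℂ × (τ → ℂ) => - (N (z.1 - hsq z.2) 1 z.2) / (M (z.1 - hsq z.2) 1 z.2)) ''
      {z : ℂ × (τ → ℂ) | Fw z.1 1 z.2 = 0 ∧ ∀ i, Fx i z.1 1 z.2 = 0} ∪
      (fun x : τ → ℂ => (M (Fw (hsq x) 0 x) 0 x)⁻¹) '' {x : τ → ℂ | ∀ i, eval x (P i) = x i},
    ((Set.finite_singleton _).union (hE.image _)).union (hZ.image _), ?_⟩
  intro α hα u w x μ hμ hμw h1 h2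
  by_cases hw : w = 0
  · subst hw
    refine ⟨rfl, ?_⟩
    rw [mul_zero, zero_add] at h1 h2
    rw [hN0, add_zero] at hμ
    by_cases hμ0 : μ = 0
    · exact hi x fun i => by rw [h2 i, hμ0, zero_mul]
    · exfalso
      obtain ⟨r, hr⟩ := IsAlgClosed.exists_pow_nat_eq μ⁻¹ (n := q - 1) (by omega)
      have hrq : r ^ q * μ = r := by
        have h3 : q = (q - 1) + 1 := by omega
        rw [h3, pow_succ, hr]
        field_simp
      have h3 : ∀ i, eval (r • x) (P i) = (r • x) i := by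
        intro i
        rw [hPe, hsq_smul]
        have h4 := hFx i r (hsq x) 0 x
        rw [mul_zero] at h4
        rw [h4, h2 i, ← mul_assoc, hrq, Pi.smul_apply, smul_eq_mul]
      apply hα
      refine Or.inr ⟨r • x, h3, ?_⟩
      have h4 := hFw r (hsq x) 0 x
      rw [mul_zero] at h4
      simp only
      rw [hsq_smul, h4, h1, ← mul_assoc, hrq]
      have h5 : M (r * u) 0 (r • x) * α = 1 := by
        have h6 := hM r u 0 x
        rw [mul_zero] at h6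
        rw [h6, mul_assoc, mul_comm (M u 0 x), ← hμ, hr, inv_mul_cancel₀ hμ0]
      exact (eq_inv_of_mul_eq_one_right h5).symm
  · exfalso
    have hμ0 : μ = 0 := (mul_eq_zero.mp hμw).resolve_right hw
    rw [hμ0, zero_mul] at h1
    simp only [hμ0, zero_mul] at h2
    have hM0 := hM1 u w x hw h1 h2
    set z₁ := w⁻¹ ^ 2 * (u * w + hsq x) with hz₁
    have e1 := scale_w hFw hw h1
    have e2 : ∀ i, Fx i z₁ 1 (w⁻¹ • x) = 0 := fun i => scale_w (hFx i) hw (h2 i)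
    have e3 : z₁ - hsq (w⁻¹ • x) = w⁻¹ * u := by
      rw [hsq_smul, hz₁]
      field_simp
      ring
    apply hα
    refine Or.inl (Or.inr ⟨(z₁, w⁻¹ • x), ⟨e1, e2⟩, ?_⟩)
    simp only
    rw [e3]
    have h5 : M (w⁻¹ * u) 1 (w⁻¹ • x) = w⁻¹ ^ (q - 1) * M u w x := by
      rw [← hM, inv_mul_cancel₀ hw]
    have h6 : N (w⁻¹ * u) 1 (w⁻¹ • x) = w⁻¹ ^ (q - 1) * N u w x := by
      rw [← hN, inv_mul_cancel₀ hw]
    have h7 : w⁻¹ ^ (q - 1) ≠ 0 := pow_ne_zero _ (inv_ne_zero hw)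
    rw [h5, h6, div_eq_iff (mul_ne_zero h7 hM0)]
    rw [hμ0] at hμ
    linear_combination (w⁻¹ ^ (q - 1)) * hμ

/-- (F2) for the steps `α u^a σ^n w^j y²` (+ `β u^c w^s y²`): `a + 2 n + j = q - 1`, and `c + s = q - 1` if
`β ≠ 0`. The condition at `σ = 0` is needed only if `n ≠ 0`. -/
theorem classC_claim_step {q : ℕ} (hq2 : 2 ≤ q) (Fw : ℂ → ℂ → (τ → ℂ) → ℂ) (Fx : τ → ℂ → ℂ → (τ → ℂ) → ℂ)
    (hFw : ∀ (c s w : ℂ) (x : τ → ℂ), Fw (c ^ 2 * s) (c * w) (c • x) = c ^ q * Fw s w x)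
    (hFx : ∀ (i : τ) (c s w : ℂ) (x : τ → ℂ), Fx i (c ^ 2 * s) (c * w) (c • x) = c ^ q * Fx i s w x)
    (P : τ → MvPolynomial τ ℂ) (hP : ∀ i, (P i).IsHomogeneous q) (hPe : ∀ i x, eval x (P i) = Fx i (hsq x) 0 x)
    (hi : ∀ x : τ → ℂ, (∀ i, Fx i (hsq x) 0 x = 0) → x = 0)
    (hii : ∀ (w : ℂ) (x : τ → ℂ), Fw (hsq x) w x = 0 → (∀ i, Fx i (hsq x) w x = 0) → w = 0)
    (a n j c s : ℕ) (β : ℂ)
    (hiii : n ≠ 0 → ∀ (w : ℂ) (x : τ → ℂ), Fw 0 w x = 0 → (∀ i, Fx i 0 w x = 0) → w = 0)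
    (hE : {z : ℂ × (τ → ℂ) | Fw z.1 1 z.2 = 0 ∧ ∀ i, Fx i z.1 1 z.2 = 0}.Finite)
    (han : a + 2 * n + j = q - 1) (hcs : β ≠ 0 → c + s = q - 1) (hs : β ≠ 0 → s ≠ 0) :
    ∃ B : Set ℂ, B.Finite ∧ ∀ α ∉ B, ∀ (u w : ℂ) (x : τ → ℂ) (μ : ℂ),
      μ = 2 * α * u ^ a * (u * w + hsq x) ^ n * w ^ j + β * u ^ c * w ^ s → μ * w = 0 →
      Fw (u * w + hsq x) w x = μ * u → (∀ i, Fx i (u * w + hsq x) w x = μ * x i) → w = 0 ∧ x = 0 := by
  obtain ⟨B, hB, H⟩ := classC_claim hq2 Fw Fx hFw hFx P hP hPe hi hE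
    (fun u w x => 2 * u ^ a * (u * w + hsq x) ^ n * w ^ j) (fun u w _ => β * u ^ c * w ^ s)
    (by
      intro r u w x
      rw [hsq_smul, ← han]
      have h1 : r * u * (r * w) + r ^ 2 * hsq x = r ^ 2 * (u * w + hsq x) := by ring
      rw [h1, mul_pow, mul_pow, mul_pow, pow_add, pow_add, pow_mul]
      ring)
    (by
      intro r u w x
      by_cases h : β = 0
      · rw [h]; ring
      · rw [← hcs h, pow_add, mul_pow, mul_pow]
        ring)
    (by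
      intro u x
      by_cases h : β = 0
      · rw [h]; ring
      · rw [zero_pow (hs h), mul_zero])
    (by
      intro u w x hw h1 h2
      have hu : u ≠ 0 := by
        rintro rfl
        rw [zero_mul, zero_add] at h1 h2
        exact hw (hii w x h1 h2)
      refine mul_ne_zero (mul_ne_zero (mul_ne_zero two_ne_zero (pow_ne_zero _ hu)) ?_) (pow_ne_zero _ hw)
      by_cases hn : n = 0
      · rw [hn, pow_zero]
        exact one_ne_zero
      · refine pow_ne_zero _ fun h0 => hw (hiii hn w x ?_ fun i => ?_)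
        · rw [h0] at h1; exact h1
        · have := h2 i
          rw [h0] at this
          exact this)
  refine ⟨B, hB, fun α hα u w x μ hμ => H α hα u w x μ ?_⟩
  rw [hμ]
  ring

end

end EY
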