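import Pool.Agent.helper35.EY.FinD
import Pool.Agent.helper5.EY.St

set_option autoImplicit false
set_option linter.unusedSectionVars false
set_option linter.unusedSimpArgs false

/-!
# EY-FinE: finiteness of the eigenscheme of a step `f = φ(Q; w, x) + y² R(Q; u, w, y, x)`

Here `Q = u w + (y² + |x|²)/2`; the variables of `f` are `Option (Option (Option τ))`: `none = u`, `some none = w`,
`some (some none) = y`, `some (some (some i)) = x_i`; `R` has one more variable `none = T`.
-/

namespace EY

open MvPolynomial

noncomputable section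

variable {τ : Type} [Fintype τ] [DecidableEq τ]

theorem eval_ev1_35 (s : ℂ) (x : τ → ℂ) (ψ : MvPolynomial (Option (Option τ)) ℂ) :
    eval (fun o : Option τ => o.elim s x) (ev1 ψ) = eval (vec s 1 x) ψ := by
  unfold ev1
  induction ψ using MvPolynomial.induction_on with
  | C a => simp
  | add p q hp hq => rw [map_add, map_add, hp, hq, map_add]
  | mul_X p o hp =>
    rw [map_mul, map_mul, hp, map_mul, aeval_X, eval_X]
    congr 1
    rcases o with _ | _ | i <;> simp [vec]

/-- the points of the E-scheme are finitely many -/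
theorem finite_crit (φ : MvPolynomial (Option (Option τ)) ℂ)
    (h : Module.Finite ℂ (MvPolynomial (Option τ) ℂ ⧸ Ideal.span (Set.range (critOne φ)))) :
    {z : ℂ × (τ → ℂ) | ∀ o : Option τ, eval (vec z.1 1 z.2) (pderiv (some o) φ) = 0}.Finite := by
  have h1 := finite_zeros _ h
  refine Set.Finite.of_finite_image (f := fun z : ℂ × (τ → ℂ) => (fun o : Option τ => o.elim z.1 z.2)) ?_ ?_
  · refine h1.subset ?_
    rintro _ ⟨z, hz, rfl⟩
    intro f hf
    induction hf using Submodule.span_induction with
    | mem g hg =>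
      obtain ⟨o, rfl⟩ := hg
      unfold critOne
      rw [eval_ev1_35]
      exact hz o
    | zero => simp
    | add u v _ _ hu hv => rw [map_add, hu, hv, add_zero]
    | smul c u _ hu => rw [smul_eq_mul, map_mul, hu, mul_zero]
  · rintro ⟨s, x⟩ _ ⟨s', x'⟩ _ hzz
    have h2 := congrFun hzz none
    have h3 : x = x' := by
      funext i
      exact congrFun hzz (some i)
    simp only [Option.elim] at h2
    rw [h2, h3]

/-- (F1), final form -/
theorem classC_finLines' {q : ℕ} (hq : 2 ≤ q) {φ : MvPolynomial (Option (Option τ)) ℂ}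
    (hφ : wh (vw τ) (q + 1) φ)
    (hi : ∀ x : τ → ℂ, (∀ i, eval (vec (hsq x) 0 x) (pderiv (some (some i)) φ) = 0) → x = 0)
    (hE : Module.Finite ℂ (MvPolynomial (Option τ) ℂ ⧸ Ideal.span (Set.range (critOne φ)))) :
    FinLines (IsEig (formC φ) (gram τ)) :=
  classC_finLines hq hφ hi (finite_crit φ hE)

/-! ### the steps -/

/-- `u, w, x` in `u, w, y, x` -/
def embV (τ : Type) : Option (Option τ) → Option (Option (Option τ)) :=
  fun o => o.elim none fun o' => o'.elim (some none) fun i => some (some (some i))

/-- `F = φ(T; w, x) + y² R(T; u, w, y, x)` -/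
def stepF (φ : MvPolynomial (Option (Option τ)) ℂ) (R : MvPolynomial (Option (Option (Option (Option τ)))) ℂ) :
    MvPolynomial (Option (Option (Option (Option τ)))) ℂ :=
  rename (embY τ) φ + X (some (some (some none))) ^ 2 * R

/-- the form `f = φ(Q; w, x) + y² R(Q; u, w, y, x)` of a step, `= formS φ (y² R)` -/
def formR (φ : MvPolynomial (Option (Option τ)) ℂ) (R : MvPolynomial (Option (Option (Option (Option τ)))) ℂ) :
    MvPolynomial (Option (Option (Option τ))) ℂ :=
  subN (qf (Option τ)) (stepF φ R)

theorem formR_eq (φ : MvPolynomial (Option (Option τ)) ℂ)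
    (R : MvPolynomial (Option (Option (Option (Option τ)))) ℂ) :
    formR φ R = formS φ (X (some (some (some none))) ^ 2 * R) := rfl

/-- the weights `2, 1, …, 1` -/
def vT (σ : Type) : Option σ → ℕ := fun o => o.elim 2 fun _ => 1

theorem wh_qf (σ : Type) [Fintype σ] [DecidableEq σ] : wh (fun _ => 1) 2 (qf σ) := by
  unfold qf
  refine wh_add ?_ ?_
  · exact wh_mul (wh_X (fun _ => 1) none) (wh_X (fun _ => 1) (some none))
  · exact wh_C_mul _ (wh_sum (s := 2) Finset.univ fun j _ => wh_pow (wh_X (fun _ => 1) (some (some j))) 2)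

theorem wh_subN_qf {σ : Type} [Fintype σ] [DecidableEq σ] {n : ℕ}
    {F : MvPolynomial (Option (Option (Option σ))) ℂ} (h : wh (vT (Option (Option σ))) n F) :
    (subN (qf σ) F).IsHomogeneous n := by
  apply isHomogeneous_of_wh
  unfold subN
  refine wh_aeval (v := vT (Option (Option σ))) ?_ h
  intro o
  rcases o with _ | o
  · exact wh_qf σ
  · exact wh_X (fun _ => 1) o

theorem embY_inj35 : Function.Injective (embY τ) := by
  intro a b h
  rcases a with _ | _ | a <;> rcases b with _ | _ | b <;> simp [embY] at h ⊢
  exact h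

theorem wh_embY {n : ℕ} {φ : MvPolynomial (Option (Option τ)) ℂ} (h : wh (vw τ) n φ) :
    wh (vT (Option (Option (Option τ)))) n (rename (embY τ) φ) := by
  have h1 : rename (embY τ) φ = aeval (fun o => (X (embY τ o) :
      MvPolynomial (Option (Option (Option (Option τ)))) ℂ)) φ := by
    have h2 : (rename (embY τ) : MvPolynomial (Option (Option τ)) ℂ →ₐ[ℂ] _) =
        aeval (fun o => (X (embY τ o) : MvPolynomial (Option (Option (Option (Option τ)))) ℂ)) := by
      apply MvPolynomial.algHom_ext
      intro o
      rw [rename_X, aeval_X]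
    rw [h2]
  rw [h1]
  refine wh_aeval (v := vw τ) ?_ h
  intro o
  have h2 := wh_X (vT (Option (Option (Option τ)))) (embY τ o)
  rcases o with _ | _ | i
  · exact h2
  · exact h2
  · exact h2

theorem wh_stepF {q : ℕ} (hq : 1 ≤ q) {φ : MvPolynomial (Option (Option τ)) ℂ} (hφ : wh (vw τ) (q + 1) φ)
    {R : MvPolynomial (Option (Option (Option (Option τ)))) ℂ}
    (hR : wh (vT (Option (Option (Option τ)))) (q - 1) R) :
    wh (vT (Option (Option (Option τ)))) (q + 1) (stepF φ R) := by
  refine wh_add (wh_embY hφ) ?_
  have h1 := wh_mul (wh_pow (wh_X (vT (Option (Option (Option τ)))) (some (some (some none)))) 2) hR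
  have h2 : vT (Option (Option (Option τ))) (some (some (some none))) * 2 + (q - 1) = q + 1 := by
    have h3 : vT (Option (Option (Option τ))) (some (some (some none))) = 1 := rfl
    rw [h3]
    omega
  rwa [h2] at h1

theorem formR_hom {q : ℕ} (hq : 1 ≤ q) {φ : MvPolynomial (Option (Option τ)) ℂ} (hφ : wh (vw τ) (q + 1) φ)
    {R : MvPolynomial (Option (Option (Option (Option τ)))) ℂ}
    (hR : wh (vT (Option (Option (Option τ)))) (q - 1) R) : (formR φ R).IsHomogeneous (q + 1) :=
  wh_subN_qf (wh_stepF hq hφ hR)

/-- the vector `(u, w, y, x)` -/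
def vecY (u w y : ℂ) (x : τ → ℂ) : Option (Option (Option τ)) → ℂ := vec u w fun o => o.elim y x

/-- the point `(T, u, w, y, x)` -/
def vecT (s u w y : ℂ) (x : τ → ℂ) : Option (Option (Option (Option τ))) → ℂ := fun o => o.elim s (vecY u w y x)

theorem hsq_zero_elim (x : τ → ℂ) : hsq (fun o : Option τ => o.elim 0 x) = hsq x := by
  unfold hsq
  rw [Fintype.sum_option]
  simp

theorem eval_subN_zero (G : MvPolynomial (Option (Option (Option (Option τ)))) ℂ) (u w : ℂ) (x : τ → ℂ) :
    eval (vecY u w 0 x) (subN (qf (Option τ)) G) = eval (vecT (u * w + hsq x) u w 0 x) G := by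
  rw [eval_subN']
  unfold vecY
  rw [eval_qf, hsq_zero_elim]
  rfl

theorem eval_embY (ψ : MvPolynomial (Option (Option τ)) ℂ) (s u w y : ℂ) (x : τ → ℂ) :
    eval (vecT s u w y x) (rename (embY τ) ψ) = eval (vec s w x) ψ := by
  rw [eval_rename]
  congr 2
  funext o
  rcases o with _ | _ | i <;> rfl

/-- the derivatives of `stepF` in the directions `T, w, x` at `y = 0` -/
theorem pderiv_stepF (φ : MvPolynomial (Option (Option τ)) ℂ)
    (R : MvPolynomial (Option (Option (Option (Option τ)))) ℂ) (o : Option (Option τ)) (s u w : ℂ) (x : τ → ℂ) :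
    eval (vecT s u w 0 x) (pderiv (embY τ o) (stepF φ R)) = eval (vec s w x) (pderiv o φ) := by
  unfold stepF
  rw [map_add, map_add, pderiv_rename embY_inj35, eval_embY, Derivation.leibniz, Derivation.leibniz_pow, map_add,
    smul_eq_mul, smul_eq_mul, map_mul, map_pow, eval_X, nsmul_eq_mul, map_mul, smul_eq_mul, map_mul, map_mul,
    map_pow, eval_X]
  have h1 : vecT s u w 0 x (some (some (some none))) = 0 := rfl
  rw [h1]
  simp

theorem pderiv_stepF_u (φ : MvPolynomial (Option (Option τ)) ℂ)
    (R : MvPolynomial (Option (Option (Option (Option τ)))) ℂ) (s u w : ℂ) (x : τ → ℂ) :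
    eval (vecT s u w 0 x) (pderiv (some none) (stepF φ R)) = 0 := by
  unfold stepF
  have h0 : pderiv (some none) (rename (embY τ) φ) = 0 := by
    apply pderiv_eq_zero_of_notMem_vars
    intro hmem
    obtain ⟨o, _, ho⟩ := Finset.mem_image.mp (vars_rename (embY τ) φ hmem)
    rcases o with _ | _ | o <;> simp [embY] at ho
  rw [map_add, map_add, h0, map_zero, Derivation.leibniz, Derivation.leibniz_pow, map_add,
    smul_eq_mul, smul_eq_mul, map_mul, map_pow, eval_X, nsmul_eq_mul, map_mul, smul_eq_mul, map_mul, map_mul,
    map_pow, eval_X]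
  have h1 : vecT s u w 0 x (some (some (some none))) = 0 := rfl
  rw [h1]
  simp

/-- at `y = 0` the gradient of a step is the gradient of the class C form -/
theorem pderiv_formR (φ : MvPolynomial (Option (Option τ)) ℂ)
    (R : MvPolynomial (Option (Option (Option (Option τ)))) ℂ) (o : Option (Option τ)) (u w : ℂ) (x : τ → ℂ) :
    eval (vecY u w 0 x) (pderiv (embV τ o) (formR φ R)) = eval (vec u w x) (pderiv o (formC φ)) := by
  unfold formR
  rw [pderiv_subN, pderiv_qf, map_add, map_mul, eval_subN_zero, eval_subN_zero]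
  have hT : eval (vecT (u * w + hsq x) u w 0 x) (pderiv none (stepF φ R)) =
      eval (vec (u * w + hsq x) w x) (pderiv none φ) := pderiv_stepF φ R none _ u w x
  rw [hT]
  rcases o with _ | o
  · rw [pderiv_formC_none]
    have h1 : embV τ none = none := rfl
    rw [h1, pderiv_stepF_u, zero_add]
    simp [slq, vecY, vec]
  · rw [pderiv_formC_some]
    have h1 : some (embV τ (some o)) = embY τ (some o) := by
      rcases o with _ | i <;> rfl
    rw [h1, pderiv_stepF]
    congr 1
    congr 1
    rcases o with _ | i
    · simp [embV, slq, vecY, vec]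
    · simp [embV, slq, vecY, vec]

theorem eval_slq_embV (o : Option (Option τ)) (u w : ℂ) (x : τ → ℂ) :
    eval (vecY u w 0 x) (slq (embV τ o)) = eval (vec u w x) (slq o) := by
  rcases o with _ | _ | i <;> simp [embV, slq, vecY, vec]

theorem vecY_eta (v : Option (Option (Option τ)) → ℂ) :
    vecY (v none) (v (some none)) (v (some (some none))) (fun i => v (some (some (some i)))) = v := by
  funext o
  rcases o with _ | _ | _ | i <;> rfl

/-- the cofactor of `y` in `∂_y f` -/
def cofY (φ : MvPolynomial (Option (Option τ)) ℂ) (R : MvPolynomial (Option (Option (Option (Option τ)))) ℂ) :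
    MvPolynomial (Option (Option (Option τ))) ℂ :=
  subN (qf (Option τ)) (pderiv none (stepF φ R) + (2 * R + X (some (some (some none))) *
    pderiv (some (some (some none))) R))

theorem pderiv_y_formR (φ : MvPolynomial (Option (Option τ)) ℂ)
    (R : MvPolynomial (Option (Option (Option (Option τ)))) ℂ) :
    pderiv (some (some none)) (formR φ R) = X (some (some none)) * cofY φ R := by
  have h0 : pderiv (some (some (some none))) (rename (embY τ) φ) = 0 := by
    apply pderiv_eq_zero_of_notMem_vars
    intro hmem
    obtain ⟨o, _, ho⟩ := Finset.mem_image.mp (vars_rename (embY τ) φ hmem)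
    rcases o with _ | _ | o <;> simp [embY] at ho
  have h1 : pderiv (some (some (some none))) (stepF φ R) = X (some (some (some none))) *
      (2 * R + X (some (some (some none))) * pderiv (some (some (some none))) R) := by
    unfold stepF
    rw [map_add, h0, Derivation.leibniz, Derivation.leibniz_pow, pderiv_X_self]
    simp only [smul_eq_mul, nsmul_eq_mul, Nat.cast_ofNat, mul_one, Nat.add_one_sub_one, pow_one]
    ring
  unfold formR cofY
  rw [pderiv_subN, h1, pderiv_qf, map_add, map_mul, subN_some]
  have h2 : slq (some (some none) : Option (Option (Option τ))) = X (some (some none)) := rfl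
  rw [h2]
  ring

theorem cofY_hom {q : ℕ} (hq : 1 ≤ q) {φ : MvPolynomial (Option (Option τ)) ℂ} (hφ : wh (vw τ) (q + 1) φ)
    {R : MvPolynomial (Option (Option (Option (Option τ)))) ℂ}
    (hR : wh (vT (Option (Option (Option τ)))) (q - 1) R) : (cofY φ R).IsHomogeneous (q - 1) := by
  apply wh_subN_qf
  refine wh_add ?_ (wh_add ?_ ?_)
  · refine wh_pderiv (wh_stepF hq hφ hR) none (q - 1) ?_
    have h3 : vT (Option (Option (Option τ))) none = 2 := rfl
    rw [h3]
    omega
  · have h1 : (2 * R : MvPolynomial (Option (Option (Option (Option τ)))) ℂ) = C 2 * R := by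
      rw [map_ofNat]
    rw [h1]
    exact wh_C_mul 2 hR
  · by_cases hq1 : q = 1
    · subst hq1
      -- `R` is a constant
      have h1 : pderiv (some (some (some none))) R = 0 := by
        ext α
        rw [coeff_pderiv, coeff_zero]
        by_contra hne
        have h2 := hR _ (left_ne_zero_of_mul hne)
        rw [wd_add, wd_single] at h2
        have h3 : vT (Option (Option (Option τ))) (some (some (some none))) = 1 := rfl
        rw [h3] at h2
        omega
      rw [h1, mul_zero]
      exact wh_zero _ _
    · have h3 : vT (Option (Option (Option τ))) (some (some (some none))) = 1 := rfl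
      have h1 := wh_mul (wh_X (vT (Option (Option (Option τ)))) (some (some (some none))))
        (wh_pderiv hR (some (some (some none))) (q - 2) (by rw [h3]; omega))
      rw [h3] at h1
      have h4 : 1 + (q - 2) = q - 1 := by omega
      rwa [h4] at h1

theorem eval_cofY (φ : MvPolynomial (Option (Option τ)) ℂ)
    (R : MvPolynomial (Option (Option (Option (Option τ)))) ℂ) (u w : ℂ) (x : τ → ℂ) :
    eval (vecY u w 0 x) (cofY φ R) = eval (vec (u * w + hsq x) w x) (pderiv none φ) +
      2 * eval (vecT (u * w + hsq x) u w 0 x) R := by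
  unfold cofY
  rw [eval_subN_zero, map_add, map_add, map_mul, map_mul, eval_X]
  have hT : eval (vecT (u * w + hsq x) u w 0 x) (pderiv none (stepF φ R)) =
      eval (vec (u * w + hsq x) w x) (pderiv none φ) := pderiv_stepF φ R none _ u w x
  have h1 : vecT (u * w + hsq x) u w 0 x (some (some (some none))) = 0 := rfl
  rw [hT, h1, map_ofNat]
  ring

/-- (F2) finiteness of the eigenscheme of a step -/
theorem step_finLines {q : ℕ} (hq : 1 ≤ q) {φ : MvPolynomial (Option (Option τ)) ℂ}
    (hφ : wh (vw τ) (q + 1) φ) {R : MvPolynomial (Option (Option (Option (Option τ)))) ℂ}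
    (hR : wh (vT (Option (Option (Option τ)))) (q - 1) R)
    (hψ : FinLines (IsEig (formC φ) (gram τ)))
    (hclaim : ∀ (u w : ℂ) (x : τ → ℂ) (μ : ℂ), μ = 2 * eval (vecT (u * w + hsq x) u w 0 x) R → μ * w = 0 →
      eval (vec (u * w + hsq x) w x) (pderiv (some none) φ) = μ * u →
      (∀ i, eval (vec (u * w + hsq x) w x) (pderiv (some (some i)) φ) = μ * x i) → w = 0 ∧ x = 0)
    (hmul : mulAt (affIdeal (formR φ R) (gram (Option τ)) (some none)) 0 ≠ 0) :
    FinLines (IsEig (formR φ R) (gram (Option τ))) := by
  refine finLines_step (m := q - 1) (formR φ R) (formR_hom hq hφ hR) (gram (Option τ)) (some none) gram_w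
    (some (some none)) ?_ (cofY φ R) (pderiv_y_formR φ R) (cofY_hom hq hφ hR) (by omega) 0 ?_ ?_ hmul
  · intro j
    rcases j with _ | _ | _ | j <;> simp [gram]
  · -- the base
    obtain ⟨T, hT, hT'⟩ := hψ
    refine ⟨(fun t : Option (Option τ) → ℂ => vecY (t none) (t (some none)) 0 fun i => t (some (some i))) '' T,
      hT.image _, ?_⟩
    rintro v ⟨hv, hvy⟩
    set u := v none with hu
    set w := v (some none) with hw
    set x : τ → ℂ := fun i => v (some (some (some i))) with hx
    have hveta : v = vecY u w 0 x := by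
      rw [← vecY_eta v, hvy]
    have hv' : IsEig (formC φ) (gram τ) (vec u w x) := by
      intro j k
      have h1 := hv (embV τ j) (embV τ k)
      rw [hveta] at h1
      rw [sl_gram, sl_gram, map_sub, map_mul, map_mul, pderiv_formR, pderiv_formR, eval_slq_embV,
        eval_slq_embV] at h1
      rw [sl_gram, sl_gram, map_sub, map_mul, map_mul]
      exact h1
    obtain ⟨t, ht, c, hc⟩ := hT' _ hv'
    refine ⟨_, ⟨t, ht, rfl⟩, c, ?_⟩
    rw [hveta]
    funext o
    rcases o with _ | _ | _ | i
    · exact congrFun hc none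
    · exact congrFun hc (some none)
    · simp [vecY, vec]
    · exact congrFun hc (some (some i))
  · -- the claim
    intro v hvy hv
    set u := v none with hu
    set w := v (some none) with hw
    set x : τ → ℂ := fun i => v (some (some (some i))) with hx
    have hveta : v = vecY u w 0 x := by
      rw [← vecY_eta v, hvy]
    rw [hveta] at hv
    have h1 : ∀ k, eval (vec u w x) (pderiv k (formC φ)) =
        eval (vecY u w 0 x) (cofY φ R) * eval (vec u w x) (slq k) := by
      intro k
      have h2 := hv (embV τ k)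
      rw [sl_gram, pderiv_formR, eval_slq_embV] at h2
      exact h2
    obtain ⟨μ, hμ, h2, h3, h4⟩ := eig_formC h1
    rw [eval_cofY] at hμ
    obtain ⟨hw0, hx0⟩ := hclaim u w x μ (by rw [hμ]; ring) h2 h3 h4
    refine ⟨u, ?_⟩
    rw [hveta, hw0, hx0]
    funext o
    rcases o with _ | _ | _ | i <;> simp [vecY, vec]

end

end EY
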