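import Pool.Agent.helper62.BZ.Ell
import Pool.Agent.helper5.EY.Defs
import Pool.Agent.helper40.EY.Pow

set_option autoImplicit false

/-!
# EY-FinJ: finiteness of the zero set of a homogeneous system

* `finite_proj_of_hyperplane`: a homogeneous system without nonzero zero on a hypersurface has finitely many
  projective zeros;
* `finite_proj_of_isolated`: the same if the only zero on the hyperplane `x_j = 0` is one point `p` (in the chart
  `x_i = 1`) and the local ring of the system at `p` is finite dimensional.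
-/

namespace EY

open MvPolynomial Pool.Agent.helper62.BZ LinearAlgebra.Projectivization

noncomputable section

variable {n : ℕ}

/-- the projective zeros of a set of polynomials -/
def projZeros (S : Set (MvPolynomial (Fin n) ℂ)) : Set (ℙ ℂ (Fin n → ℂ)) :=
  {P | ∀ f ∈ S, eval P.rep f = 0}

lemma eval_smul_zero {f : MvPolynomial (Fin n) ℂ} {e : ℕ} (hf : f.IsHomogeneous e) (c : ℂ) {x : Fin n → ℂ}
    (hx : eval x f = 0) : eval (c • x) f = 0 := by
  rw [eval_homogeneous_smul hf, hx, mul_zero]

/-- a homogeneous system without nonzero zero on the hypersurface `g = 0` has finitely many projective zeros -/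
theorem finite_proj_of_hyperplane (S : Set (MvPolynomial (Fin n) ℂ)) (hS : ∀ f ∈ S, ∃ e, f.IsHomogeneous e)
    {g : MvPolynomial (Fin n) ℂ} {d : ℕ} (hd : 0 < d) (hg : g.IsHomogeneous d)
    (h0 : ∀ v : Fin n → ℂ, (∀ f ∈ S, eval v f = 0) → eval v g = 0 → v = 0) :
    (projZeros S).Finite := by
  have hI : HomI (Ideal.span S) := homI_span hS
  have hfin := finite_points hI hd hg (fun x hx hgx =>
    h0 x (fun f hf => hx f (Ideal.subset_span hf)) hgx)
  set Z : Set (Fin n → ℂ) := {x | (∀ f ∈ Ideal.span S, eval x f = 0) ∧ eval x g = 1} with hZ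
  have hne : ∀ x ∈ Z, x ≠ 0 := by
    intro x hx h
    have h1 := hx.2
    rw [h] at h1
    have h2 : eval (0 : Fin n → ℂ) g = 0 := by
      have := eval_homogeneous_smul hg 0 (0 : Fin n → ℂ)
      rw [zero_pow hd.ne', zero_mul, smul_zero] at this
      exact this
    rw [h2] at h1
    exact zero_ne_one h1
  have hsub : projZeros S ⊆ Set.range (fun x : Z => (Projectivization.mk ℂ x.1 (hne x.1 x.2))) := by
    intro P hP
    have hPne := P.rep_nonzero
    have hg0 : eval P.rep g ≠ 0 := fun h => hPne (h0 _ hP h)
    obtain ⟨c, hc⟩ := IsAlgClosed.exists_pow_nat_eq (eval P.rep g)⁻¹ hd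
    have hc0 : c ≠ 0 := by
      rintro rfl
      rw [zero_pow hd.ne'] at hc
      exact (inv_ne_zero hg0) hc.symm
    have hmem : c • P.rep ∈ Z := by
      refine ⟨fun f hf => ?_, ?_⟩
      · refine Submodule.span_induction (p := fun f _ => eval (c • P.rep) f = 0) ?_ ?_ ?_ ?_ hf
        · intro f hf
          obtain ⟨e, he⟩ := hS f hf
          exact eval_smul_zero he c (hP f hf)
        · simp
        · intro a b _ _ ha hb
          rw [map_add, ha, hb, add_zero]
        · intro a b _ hb
          rw [smul_eq_mul, map_mul, hb, mul_zero]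
      · rw [eval_homogeneous_smul hg, hc, inv_mul_cancel₀ hg0]
    refine ⟨⟨c • P.rep, hmem⟩, ?_⟩
    change Projectivization.mk ℂ (c • P.rep) _ = P
    conv_rhs => rw [← P.mk_rep]
    rw [Projectivization.mk_eq_mk_iff']
    exact ⟨c, rfl⟩
  have : Finite Z := hfin
  exact (Set.finite_range _).subset hsub

/-- homogenisation of a polynomial with respect to the variable `x_i` -/
def hmg (i : Fin n) (s : MvPolynomial (Fin n) ℂ) : MvPolynomial (Fin n) ℂ :=
  ∑ t ∈ Finset.range (s.totalDegree + 1), X i ^ (s.totalDegree - t) * homogeneousComponent t s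

lemma hmg_isHomogeneous (i : Fin n) (s : MvPolynomial (Fin n) ℂ) : (hmg i s).IsHomogeneous s.totalDegree := by
  apply IsHomogeneous.sum
  intro t ht
  have h1 : s.totalDegree = (s.totalDegree - t) + t := by
    have := Finset.mem_range.mp ht
    omega
  conv_rhs => rw [h1]
  refine IsHomogeneous.mul ?_ (homogeneousComponent_isHomogeneous t s)
  simpa using (isHomogeneous_X ℂ i).pow (s.totalDegree - t)

lemma eval_hmg (i : Fin n) (s : MvPolynomial (Fin n) ℂ) {v : Fin n → ℂ} (hv : v i = 1) :
    eval v (hmg i s) = eval v s := by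
  unfold hmg
  rw [map_sum]
  conv_rhs => rw [← sum_homogeneousComponent s, map_sum]
  apply Finset.sum_congr rfl
  intro t _
  rw [map_mul, map_pow, eval_X, hv, one_pow, one_mul]

/-- a homogeneous system with exactly one zero `p` on the hyperplane `x_j = 0`, such that its local ring at `p`
is finite dimensional, has finitely many projective zeros -/
theorem finite_proj_of_isolated (S : Set (MvPolynomial (Fin n) ℂ)) (hS : ∀ f ∈ S, ∃ e, f.IsHomogeneous e)
    (i j : Fin n) (p : Fin n → ℂ) (hpi : p i = 1) (hpj : p j = 0)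
    (h0 : ∀ v : Fin n → ℂ, (∀ f ∈ S, eval v f = 0) → v j = 0 → ∃ c : ℂ, v = c • p)
    (hfin : Module.Finite ℂ (Localization.AtPrime (pt p) ⧸ (Ideal.span S ⊔ Ideal.span {X i - 1}).map
      (algebraMap (MvPolynomial (Fin n) ℂ) (Localization.AtPrime (pt p))))) :
    (projZeros S).Finite := by
  obtain ⟨s, hs, hsJ⟩ := killed_of_finite (Ideal.span S ⊔ Ideal.span {X i - 1}) p hfin le_rfl
    (X j ^ (mulAt (Ideal.span S ⊔ Ideal.span {X i - 1}) p))
    (Ideal.pow_mem_pow (by rw [pt, RingHom.mem_ker]; simp [hpj]) _)
  set N := mulAt (Ideal.span S ⊔ Ideal.span {X i - 1}) p with hN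
  have hsp : eval p s ≠ 0 := fun h => hs (by rw [pt, RingHom.mem_ker]; exact h)
  -- zeros with `v i = 1`
  have key : ∀ v : Fin n → ℂ, (∀ f ∈ S, eval v f = 0) → v i = 1 → eval v s = 0 ∨ v j = 0 := by
    intro v hv hvi
    have h1 : eval v (s * X j ^ N) = 0 := by
      have h2 : Ideal.span S ⊔ Ideal.span {X i - 1} ≤ RingHom.ker (eval v) := by
        apply sup_le
        · rw [Ideal.span_le]
          intro f hf
          exact hv f hf
        · rw [Ideal.span_le]
          intro f hf
          rw [Set.mem_singleton_iff] at hf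
          rw [hf, SetLike.mem_coe, RingHom.mem_ker]
          simp [hvi]
      exact h2 hsJ
    rw [map_mul, map_pow, eval_X, mul_eq_zero] at h1
    rcases h1 with h1 | h1
    · exact Or.inl h1
    · exact Or.inr (eq_zero_of_pow_eq_zero h1)
  set g : MvPolynomial (Fin n) ℂ := X i * hmg i s with hg
  have hgh : g.IsHomogeneous (1 + s.totalDegree) := (isHomogeneous_X ℂ i).mul (hmg_isHomogeneous i s)
  have hpne : p ≠ 0 := by
    intro h
    rw [h] at hpi
    exact zero_ne_one hpi
  -- the enlarged system
  have hfin' : (projZeros (insert g S)).Finite := by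
    refine finite_proj_of_hyperplane (insert g S) ?_ (g := X j) (d := 1) one_pos (isHomogeneous_X ℂ j) ?_
    · rintro f (rfl | hf)
      · exact ⟨_, hgh⟩
      · exact hS f hf
    · intro v hv hvj
      rw [eval_X] at hvj
      obtain ⟨c, rfl⟩ := h0 v (fun f hf => hv f (Set.mem_insert_of_mem _ hf)) hvj
      have h1 : eval (c • p) g = 0 := hv g (Set.mem_insert _ _)
      rw [eval_homogeneous_smul hgh, hg, map_mul, eval_X, hpi, one_mul, eval_hmg i s hpi, mul_eq_zero] at h1
      rcases h1 with h1 | h1
      · have hc : c = 0 := eq_zero_of_pow_eq_zero h1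
        rw [hc, zero_smul]
      · exact absurd h1 hsp
  refine (hfin'.union (Set.finite_singleton (Projectivization.mk ℂ p hpne))).subset ?_
  intro P hP
  by_cases hPi : P.rep i = 0
  · left
    rintro f (rfl | hf)
    · rw [hg, map_mul, eval_X, hPi, zero_mul]
    · exact hP f hf
  · set v : Fin n → ℂ := (P.rep i)⁻¹ • P.rep with hv
    have hvi : v i = 1 := by
      rw [hv, Pi.smul_apply, smul_eq_mul, inv_mul_cancel₀ hPi]
    have hvS : ∀ f ∈ S, eval v f = 0 := by
      intro f hf
      obtain ⟨e, he⟩ := hS f hf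
      exact eval_smul_zero he _ (hP f hf)
    have hPv : P.rep = (P.rep i) • v := by
      rw [hv, smul_smul, mul_inv_cancel₀ hPi, one_smul]
    rcases key v hvS hvi with h1 | h1
    · left
      rintro f (rfl | hf)
      · have h2 : eval v g = 0 := by
          rw [hg, map_mul, eval_hmg i s hvi, h1, mul_zero]
        rw [hPv]
        exact eval_smul_zero hgh _ h2
      · exact hP f hf
    · right
      obtain ⟨c, hc⟩ := h0 v hvS h1
      rw [Set.mem_singleton_iff]
      conv_lhs => rw [← P.mk_rep]
      rw [Projectivization.mk_eq_mk_iff']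
      refine ⟨P.rep i * c, ?_⟩
      rw [mul_smul, ← hc, ← hPv]

end

end EY
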