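import Pool.Agent.helper35.EY.FinZ

set_option autoImplicit false
set_option linter.unusedSectionVars false
set_option linter.unusedSimpArgs false

/-!
# EY-FinZ1: finiteness for the step `f = φ(Q; w, x) + θ u^(q-2) b y²`, `b = x_{i0}`, without a condition on the
critical points of `φ` in `b = 0`

`MSt.finT1`: `q ≥ 3`, `φ` a metric class C state such that `b = 0` and `φ_w = φ_z = 0` at `σ = 0` only at `0`
(`z` the other variables `x_i`, `i ≠ i0`).
-/

namespace EY

open MvPolynomial

noncomputable section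

/-! ### the general lemma -/

section general

variable {κ' : Type} [Fintype κ'] [DecidableEq κ']

/-- the vectors with `∇f = Q · S x` and an additional homogeneous equation `h = 0`: if on `y = 0` there are only the
multiples of `(1, p)`, they lie on finitely many lines -/
theorem finLines_extra35 {d m e' : ℕ} (f : MvPolynomial (Option κ') ℂ)
    (hf : f.IsHomogeneous d)
    (S : Matrix (Option κ') (Option κ') ℂ) (w : Option κ')
    (hw : ∀ j, S w j = if j = none then 1 else 0) (y : Option κ')
    (Q : MvPolynomial (Option κ') ℂ) (hQm : Q.IsHomogeneous m) (hm : m + 2 = d)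
    (h : MvPolynomial (Option κ') ℂ) (hh : h.IsHomogeneous e')
    (p : κ' → ℂ)
    (hX : ∀ v : Option κ' → ℂ, v y = 0 → (∀ k, eval v (pderiv k f) = eval v Q * eval v (sl S k)) →
      eval v h = 0 → ∃ c : ℂ, v = c • (fun o : Option κ' => o.elim 1 p))
    (hmul : mulAt (affIdeal f S w) p ≠ 0) :
    FinLines (fun v => (∀ k, eval v (pderiv k f) = eval v Q * eval v (sl S k)) ∧ eval v h = 0) := by
  classical
  obtain ⟨g, e, hg, hgp, hiso⟩ := exists_isolating f hf S w hw p hmul
  set Sys : Set (MvPolynomial (Option κ') ℂ) :=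
    insert h (Set.range fun k : Option κ' => pderiv k f - Q * sl S k) with hSys
  have hSysE : ∀ v, (∀ g ∈ Sys, eval v g = 0) ↔
      ((∀ k, eval v (pderiv k f) = eval v Q * eval v (sl S k)) ∧ eval v h = 0) := by
    intro v
    constructor
    · intro h1
      refine ⟨fun k => ?_, h1 _ (Set.mem_insert _ _)⟩
      have h2 := h1 _ (Set.mem_insert_of_mem _ ⟨k, rfl⟩)
      rw [map_sub, map_mul] at h2
      exact sub_eq_zero.mp h2
    · rintro ⟨h1, h2⟩ g hg
      rcases hg with rfl | ⟨k, rfl⟩
      · exact h2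
      · rw [map_sub, map_mul, h1 k, sub_self]
  have hmain := finLines_of_cover Sys (by
      rintro _ (rfl | ⟨k, rfl⟩)
      · exact ⟨e', hh⟩
      · refine ⟨d - 1, (hf.pderiv).sub ?_⟩
        have h1 := hQm.mul (sl_isHomogeneous S k)
        have h2 : m + 1 = d - 1 := by omega
        rwa [h2] at h1) {g} (Set.finite_singleton g) (by
      rintro _ rfl
      exact ⟨e, hg⟩) (l := X y) (d := 1) one_pos (isHomogeneous_X ℂ y) (by
      intro v hv hvG hvy
      rw [eval_X] at hvy
      obtain ⟨h1, h2⟩ := (hSysE v).mp hv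
      obtain ⟨c, hc⟩ := hX v hvy h1 h2
      have h3 := hvG g rfl
      rw [hc, eval_smul_hom hg, mul_eq_zero] at h3
      rcases h3 with h3 | h3
      · rw [hc, eq_zero_of_pow_eq_zero h3, zero_smul]
      · exact absurd h3 hgp) (by
      rintro _ rfl
      refine FinLines.single (fun o : Option κ' => o.elim 1 p) ?_
      rintro v ⟨hv, hvg⟩
      refine hiso v ?_ hvg
      obtain ⟨h1, -⟩ := (hSysE v).mp hv
      intro j k
      rw [map_sub, map_mul, map_mul, h1 k, h1 j]
      ring)
  exact hmain.mono fun v hv => (hSysE v).mpr hv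

end general

variable {τ : Type} [Fintype τ] [DecidableEq τ]

/-! ### the gradient at a general point -/

theorem hsq_elim35 (y : ℂ) (x : τ → ℂ) : hsq (fun o : Option τ => o.elim y x) = y ^ 2 / 2 + hsq x := by
  unfold hsq
  rw [Fintype.sum_option]
  simp only [Option.elim]
  ring

theorem eval_subN35 (G : MvPolynomial (Option (Option (Option (Option τ)))) ℂ) (u w y : ℂ) (x : τ → ℂ) :
    eval (vecY u w y x) (subN (qf (Option τ)) G) =
      eval (vecT (u * w + (y ^ 2 / 2 + hsq x)) u w y x) G := by
  rw [eval_subN']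
  unfold vecY
  rw [eval_qf, hsq_elim35]
  rfl

section grad

variable (φ : MvPolynomial (Option (Option τ)) ℂ) (q : ℕ) (i0 : τ) (θ : ℂ)

theorem step_T35 (T u w y : ℂ) (x : τ → ℂ) :
    eval (vecT T u w y x) (pderiv none (stepF φ (RZ τ q i0 0 θ 0))) = eval (vec T w x) (pderiv none φ) := by
  have h1 : pderiv none (rename (embY τ) φ) = rename (embY τ) (pderiv none φ) := by
    have h2 : embY τ none = none := rfl
    conv_lhs => rw [← h2]
    rw [pderiv_rename embY_inj35]
  unfold stepF RZ
  rw [map_add, map_add, h1, eval_embY]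
  simp only [Derivation.leibniz, Derivation.leibniz_pow, pderiv_C, pderiv_X, map_add, smul_eq_mul,
    Pi.single_apply]
  simp

theorem step_u35 (hq : 3 ≤ q) (T u w y : ℂ) (x : τ → ℂ) :
    eval (vecT T u w y x) (pderiv (some none) (stepF φ (RZ τ q i0 0 θ 0))) =
      y ^ 2 * (θ * (((q : ℂ) - 2) * u ^ (q - 3) * x i0)) := by
  have h0 : pderiv (some none) (rename (embY τ) φ) = 0 := by
    apply pderiv_eq_zero_of_notMem_vars
    intro hmem
    obtain ⟨o, _, ho⟩ := Finset.mem_image.mp (vars_rename (embY τ) φ hmem)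
    rcases o with _ | _ | o <;> simp [embY] at ho
  have h5 : vecT T u w y x (some (some (some none))) = y := rfl
  have h2 : vecT T u w y x (some none) = u := rfl
  have h4 : vecT T u w y x (some (some (some (some i0)))) = x i0 := rfl
  have h6 : ((q - 2 : ℕ) : ℂ) = (q : ℂ) - 2 := by
    rw [Nat.cast_sub (by omega)]
    norm_num
  have h7 : q - 2 - 1 = q - 3 := by omega
  unfold stepF RZ
  rw [map_add, h0]
  simp only [Derivation.leibniz, Derivation.leibniz_pow, pderiv_C, pderiv_X, map_add, smul_eq_mul,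
    Pi.single_apply]
  simp only [map_add, map_mul, map_pow, eval_X, eval_C, h2, h4, h5, nsmul_eq_mul, map_natCast, h6, h7]
  simp
  left
  left
  ring

theorem step_w35 (T u w y : ℂ) (x : τ → ℂ) :
    eval (vecT T u w y x) (pderiv (some (some none)) (stepF φ (RZ τ q i0 0 θ 0))) =
      eval (vec T w x) (pderiv (some none) φ) := by
  have h1 : pderiv (some (some none)) (rename (embY τ) φ) = rename (embY τ) (pderiv (some none) φ) := by
    have h2 : embY τ (some none) = some (some none) := rfl
    conv_lhs => rw [← h2]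
    rw [pderiv_rename embY_inj35]
  unfold stepF RZ
  rw [map_add, map_add, h1, eval_embY]
  simp only [Derivation.leibniz, Derivation.leibniz_pow, pderiv_C, pderiv_X, map_add, smul_eq_mul,
    Pi.single_apply]
  simp

theorem step_x35 (T u w y : ℂ) (x : τ → ℂ) (i : τ) :
    eval (vecT T u w y x) (pderiv (some (some (some (some i)))) (stepF φ (RZ τ q i0 0 θ 0))) =
      eval (vec T w x) (pderiv (some (some i)) φ) + if i = i0 then y ^ 2 * (θ * u ^ (q - 2)) else 0 := by
  have h1 : pderiv (some (some (some (some i)))) (rename (embY τ) φ) =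
      rename (embY τ) (pderiv (some (some i)) φ) := by
    have h2 : embY τ (some (some i)) = some (some (some (some i))) := rfl
    conv_lhs => rw [← h2]
    rw [pderiv_rename embY_inj35]
  have h5 : vecT T u w y x (some (some (some none))) = y := rfl
  have h2 : vecT T u w y x (some none) = u := rfl
  unfold stepF RZ
  rw [map_add, map_add, h1, eval_embY]
  simp only [Derivation.leibniz, Derivation.leibniz_pow, pderiv_C, pderiv_X, map_add, smul_eq_mul,
    Pi.single_apply]
  simp only [map_add, map_mul, map_pow, eval_X, eval_C, h2, h5, nsmul_eq_mul]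
  by_cases hi : i = i0
  · subst hi
    simp
  · have hi' : ¬ i0 = i := fun h => hi h.symm
    simp [hi, hi']

theorem cofY35 (u w y : ℂ) (x : τ → ℂ) :
    eval (vecY u w y x) (cofY φ (RZ τ q i0 0 θ 0)) =
      eval (vec (u * w + (y ^ 2 / 2 + hsq x)) w x) (pderiv none φ) + 2 * (θ * (u ^ (q - 2) * x i0)) := by
  have h5 : vecT (u * w + (y ^ 2 / 2 + hsq x)) u w y x (some (some (some none))) = y := rfl
  have h2 : vecT (u * w + (y ^ 2 / 2 + hsq x)) u w y x (some none) = u := rfl
  have h4 : vecT (u * w + (y ^ 2 / 2 + hsq x)) u w y x (some (some (some (some i0)))) = x i0 := rfl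
  have h6 : pderiv (some (some (some none))) (RZ τ q i0 0 θ 0) = 0 := by
    unfold RZ
    simp only [Derivation.leibniz, Derivation.leibniz_pow, pderiv_C, pderiv_X, map_add, smul_eq_mul,
      Pi.single_apply]
    simp
  unfold cofY
  rw [eval_subN35, map_add, step_T35, h6, mul_zero, add_zero, map_mul, map_ofNat]
  unfold RZ
  simp only [map_add, map_mul, map_pow, eval_X, eval_C, h2, h4, h5]
  ring

/-- the equations of the sheet `y ≠ 0` -/
theorem eqns35 (hq : 3 ≤ q) {u w y : ℂ} {x : τ → ℂ}
    (h : ∀ k, eval (vecY u w y x) (pderiv k (formR φ (RZ τ q i0 0 θ 0))) =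
      eval (vecY u w y x) (cofY φ (RZ τ q i0 0 θ 0)) * eval (vecY u w y x) (sl (gram (Option τ)) k)) :
    θ * (u ^ (q - 3) * (x i0 * (((q : ℂ) - 2) * y ^ 2 - 2 * (u * w)))) = 0 ∧
    eval (vec (u * w + (y ^ 2 / 2 + hsq x)) w x) (pderiv (some none) φ) = 2 * (θ * (u ^ (q - 2) * x i0)) * u ∧
    ∀ i, eval (vec (u * w + (y ^ 2 / 2 + hsq x)) w x) (pderiv (some (some i)) φ) +
      (if i = i0 then y ^ 2 * (θ * u ^ (q - 2)) else 0) = 2 * (θ * (u ^ (q - 2) * x i0)) * x i := by
  set T := u * w + (y ^ 2 / 2 + hsq x) with hT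
  have hgen : ∀ k, eval (vecY u w y x) (pderiv k (formR φ (RZ τ q i0 0 θ 0))) =
      eval (vecT T u w y x) (pderiv (some k) (stepF φ (RZ τ q i0 0 θ 0))) +
        eval (vecY u w y x) (slq k) * eval (vec T w x) (pderiv none φ) := by
    intro k
    unfold formR
    rw [pderiv_subN, pderiv_qf, map_add, map_mul, eval_subN35, eval_subN35, step_T35]
  have hc := cofY35 φ q i0 θ u w y x
  rw [← hT] at hc
  refine ⟨?_, ?_, ?_⟩
  · have h1 := h none
    rw [hgen, hc, sl_gram, step_u35 φ q i0 θ hq] at h1
    have e1 : eval (vecY u w y x) (slq (none : Option (Option (Option τ)))) = w := by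
      simp [slq, vecY, vec]
    rw [e1] at h1
    have e2 : u ^ (q - 2) = u ^ (q - 3) * u := by
      rw [← pow_succ]
      congr 1
      omega
    rw [e2] at h1
    linear_combination h1
  · have h1 := h (some none)
    rw [hgen, hc, sl_gram, step_w35] at h1
    have e1 : eval (vecY u w y x) (slq (some none : Option (Option (Option τ)))) = u := by
      simp [slq, vecY, vec]
    rw [e1] at h1
    linear_combination h1
  · intro i
    have h1 := h (some (some (some i)))
    rw [hgen, hc, sl_gram, step_x35] at h1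
    have e1 : eval (vecY u w y x) (slq (some (some (some i)) : Option (Option (Option τ)))) = x i := by
      simp [slq, vecY, vec]
    rw [e1] at h1
    linear_combination h1

end grad

/-! ### finitely many weighted lines -/

/-- substitute `σ = t²` -/
def sqs35 (ψ : MvPolynomial (Option (Option τ)) ℂ) : MvPolynomial (Option (Option τ)) ℂ :=
  aeval (fun o : Option (Option τ) => o.elim (X none ^ 2) fun o' => X (some o')) ψ

theorem eval_sqs35 (ψ : MvPolynomial (Option (Option τ)) ℂ) (t w : ℂ) (x : τ → ℂ) :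
    eval (vec t w x) (sqs35 ψ) = eval (vec (t ^ 2) w x) ψ := by
  unfold sqs35
  induction ψ using MvPolynomial.induction_on with
  | C a => simp
  | add p q hp hq => rw [map_add, map_add, hp, hq, map_add]
  | mul_X p o hp =>
    rw [map_mul, map_mul, hp, map_mul, aeval_X, eval_X]
    congr 1
    rcases o with _ | _ | i <;> simp [vec]

theorem sqs_hom35 {n : ℕ} {ψ : MvPolynomial (Option (Option τ)) ℂ} (h : wh (vw τ) n ψ) :
    (sqs35 ψ).IsHomogeneous n := by
  apply isHomogeneous_of_wh
  refine wh_aeval (v := vw τ) ?_ h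
  intro o
  rcases o with _ | _ | j
  · exact wh_pow (wh_X (fun _ => 1) none) 2
  · exact wh_X (fun _ => 1) (some none)
  · exact wh_X (fun _ => 1) (some (some j))

/-- a weighted homogeneous system `ψ_j (σ; w, x) = 0` without nonzero zero on `σ = 0` has finitely many weighted lines
of zeros -/
theorem wlines35 {ι : Type*} (ψ : ι → MvPolynomial (Option (Option τ)) ℂ)
    (n : ι → ℕ) (hψ : ∀ j, wh (vw τ) (n j) (ψ j))
    (h0 : ∀ (w : ℂ) (x : τ → ℂ), (∀ j, eval (vec 0 w x) (ψ j) = 0) → w = 0 ∧ x = 0) :
    ∃ F : Set (ℂ × ℂ × (τ → ℂ)), F.Finite ∧ ∀ (T w : ℂ) (x : τ → ℂ), (∀ j, eval (vec T w x) (ψ j) = 0) →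
      ∃ z ∈ F, ∃ c : ℂ, T = c ^ 2 * z.1 ∧ w = c * z.2.1 ∧ x = c • z.2.2 := by
  obtain ⟨L, hL, hL'⟩ := finLines_of_hyperplane (Set.range fun j => sqs35 (ψ j)) (by
      rintro _ ⟨j, rfl⟩
      exact ⟨n j, sqs_hom35 (hψ j)⟩) (g := X none) (d := 1) one_pos (isHomogeneous_X ℂ none) (by
      intro v hv hv0
      rw [eval_X] at hv0
      have h1 := h0 (v (some none)) (fun i => v (some (some i))) (by
        intro j
        have h2 := hv _ ⟨j, rfl⟩
        rw [← vec_eta v, eval_sqs35, hv0] at h2
        simpa using h2)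
      rw [← vec_eta v, hv0, h1.1, h1.2]
      funext o
      rcases o with _ | _ | i <;> rfl)
  refine ⟨(fun t : Option (Option τ) → ℂ => (t none ^ 2, t (some none), fun i => t (some (some i)))) '' L,
    hL.image _, ?_⟩
  intro T w x hz
  obtain ⟨s, hs⟩ := IsAlgClosed.exists_pow_nat_eq T (n := 2) (by norm_num)
  obtain ⟨t, ht, c, hc⟩ := hL' (vec s w x) (by
    rintro _ ⟨j, rfl⟩
    rw [eval_sqs35, hs]
    exact hz j)
  refine ⟨_, ⟨t, ht, rfl⟩, c, ?_, ?_, ?_⟩
  · have h1 : s = c * t none := congrFun hc none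
    simp only
    rw [← hs, h1]
    ring
  · exact congrFun hc (some none)
  · funext i
    exact congrFun hc (some (some i))

theorem finite_sq35 (a : ℂ) : {y : ℂ | y ^ 2 = a}.Finite := by
  have h1 : (Polynomial.X ^ 2 - Polynomial.C a : Polynomial ℂ) ≠ 0 :=
    (Polynomial.monic_X_pow_sub_C a two_ne_zero).ne_zero
  refine (Polynomial.finite_setOfPred_isRoot h1).subset ?_
  intro y hy
  have hy' : y ^ 2 = a := hy
  change Polynomial.IsRoot _ y
  rw [Polynomial.IsRoot.def]
  simp [hy']

theorem finite_root35 {q : ℕ} (hq : 3 ≤ q) {θ : ℂ} (hθ : θ ≠ 0) (K w B : ℂ) (h : K ≠ 0 ∨ w ≠ 0) :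
    {u : ℂ | 2 * (θ * (u ^ (q - 2) * (K - u * w))) + B = 0}.Finite := by
  set P : Polynomial ℂ := Polynomial.C (2 * θ) * (Polynomial.X ^ (q - 2) *
    (Polynomial.C K - Polynomial.X * Polynomial.C w)) + Polynomial.C B with hP
  have hev : ∀ u, P.eval u = 2 * (θ * (u ^ (q - 2) * (K - u * w))) + B := by
    intro u
    rw [hP]
    simp
    ring
  have hP0 : P ≠ 0 := by
    intro h0
    have e0 := hev 0
    have e1 := hev 1
    have e2 := hev (-1)
    rw [h0, Polynomial.eval_zero] at e0 e1 e2
    rw [zero_pow (by omega)] at e0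
    have hB : B = 0 := by linear_combination -e0
    rw [hB, one_pow] at e1
    rw [hB] at e2
    have h1 : K - w = 0 := by
      have : 2 * θ * (K - w) = 0 := by linear_combination -e1
      exact (mul_eq_zero.mp this).resolve_left (mul_ne_zero two_ne_zero hθ)
    have h2 : K + w = 0 := by
      have h3 : (2 * θ * (-1) ^ (q - 2)) * (K + w) = 0 := by linear_combination -e2
      refine (mul_eq_zero.mp h3).resolve_left (mul_ne_zero (mul_ne_zero two_ne_zero hθ) ?_)
      exact pow_ne_zero _ (by norm_num)
    have h4 : K = 0 := by linear_combination (h1 + h2) / 2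
    have h5 : w = 0 := by linear_combination (h2 - h1) / 2
    rcases h with h | h
    · exact h h4
    · exact h h5
  refine (Polynomial.finite_setOfPred_isRoot hP0).subset ?_
  intro u hu
  change Polynomial.IsRoot _ u
  rw [Polynomial.IsRoot.def, hev]
  exact hu

theorem smul_vecY35 (c u w y : ℂ) (x : τ → ℂ) : c • vecY u w y x = vecY (c * u) (c * w) (c * y) (c • x) := by
  funext o
  rcases o with _ | _ | _ | i <;> simp [vecY, vec]

/-- finitely many lines over finitely many weighted lines: `y² = 2(T - u w - |x|²/2)`, and `u` satisfies a nontrivial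
equation -/
theorem lift35 {q : ℕ} (hq : 3 ≤ q) {θ : ℂ} (hθ : θ ≠ 0) (Bf : ℂ → ℂ → (τ → ℂ) → ℂ)
    (hBf : ∀ (c s w : ℂ) (x : τ → ℂ), Bf (c ^ 2 * s) (c * w) (c • x) = c ^ q * Bf s w x)
    {F : Set (ℂ × ℂ × (τ → ℂ))} (hF : F.Finite) :
    FinLines (fun v : Option (Option (Option τ)) → ℂ => ∃ (u w y : ℂ) (x : τ → ℂ), v = vecY u w y x ∧ y ≠ 0 ∧
      (∃ z ∈ F, ∃ c : ℂ, u * w + (y ^ 2 / 2 + hsq x) = c ^ 2 * z.1 ∧ w = c * z.2.1 ∧ x = c • z.2.2) ∧
      (Bf (u * w + (y ^ 2 / 2 + hsq x)) w x + y ^ 2 * (θ * u ^ (q - 2)) = 0 ∨ u = 0)) := by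
  classical
  -- the `u` values
  set U : ℂ × ℂ × (τ → ℂ) → Set ℂ := fun z =>
    if z.1 - hsq z.2.2 ≠ 0 ∨ z.2.1 ≠ 0 then
      insert 0 {u : ℂ | 2 * (θ * (u ^ (q - 2) * ((z.1 - hsq z.2.2) - u * z.2.1))) + Bf z.1 z.2.1 z.2.2 = 0} else ∅
    with hU
  have hUf : ∀ z, (U z).Finite := by
    intro z
    simp only [hU]
    split_ifs with h
    · exact (finite_root35 hq hθ _ _ _ h).insert 0
    · exact Set.finite_empty
  refine ⟨⋃ z ∈ F, ⋃ u ∈ U z, (fun y : ℂ => vecY u z.2.1 y z.2.2) ''
    {y : ℂ | y ^ 2 = 2 * ((z.1 - hsq z.2.2) - u * z.2.1)}, ?_, ?_⟩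
  · exact hF.biUnion fun z _ => (hUf z).biUnion fun u _ => (finite_sq35 _).image _
  · rintro v ⟨u, w, y, x, rfl, hy, ⟨z, hz, c, h1, h2, h3⟩, h4⟩
    have hc : c ≠ 0 := by
      rintro rfl
      rw [h2, h3, zero_smul, hsq_zero] at h1
      apply hy
      have h5 : y ^ 2 = 0 := by linear_combination 2 * h1
      exact pow_eq_zero_iff two_ne_zero |>.mp h5
    set u' := u / c with hu'
    set y' := y / c with hy'
    have hu : u = c * u' := by rw [hu']; field_simp
    have hyy : y = c * y' := by rw [hy']; field_simp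
    have hy0 : y' ≠ 0 := div_ne_zero hy hc
    have hc2 : c ^ 2 ≠ 0 := pow_ne_zero _ hc
    have h6 : y' ^ 2 = 2 * ((z.1 - hsq z.2.2) - u' * z.2.1) := by
      rw [h3, hsq_smul, h2, hu, hyy] at h1
      have h7 : c ^ 2 * (y' ^ 2 - 2 * ((z.1 - hsq z.2.2) - u' * z.2.1)) = 0 := by
        linear_combination 2 * h1
      exact sub_eq_zero.mp ((mul_eq_zero.mp h7).resolve_left hc2)
    have hne : z.1 - hsq z.2.2 ≠ 0 ∨ z.2.1 ≠ 0 := by
      by_contra hcon
      push Not at hcon
      rw [hcon.1, hcon.2] at h6
      apply hy0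
      have h7 : y' ^ 2 = 0 := by rw [h6]; ring
      exact pow_eq_zero_iff two_ne_zero |>.mp h7
    refine ⟨vecY u' z.2.1 y' z.2.2, ?_, c, ?_⟩
    · refine Set.mem_biUnion hz (Set.mem_biUnion (x := u') ?_ ⟨y', h6, rfl⟩)
      simp only [hU]
      rw [if_pos hne]
      rcases h4 with h4 | h4
      · refine Or.inr ?_
        have h8 : Bf (u * w + (y ^ 2 / 2 + hsq x)) w x = c ^ q * Bf z.1 z.2.1 z.2.2 := by
          rw [h1, h2, h3, hBf]
        rw [h8, hyy, hu, mul_pow, mul_pow] at h4
        have h9 : c ^ q = c ^ (q - 2) * c ^ 2 := by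
          rw [← pow_add]
          congr 1
          omega
        rw [h9] at h4
        have h10 : c ^ (q - 2) * c ^ 2 ≠ 0 := mul_ne_zero (pow_ne_zero _ hc) hc2
        have h11 : (c ^ (q - 2) * c ^ 2) * (Bf z.1 z.2.1 z.2.2 + y' ^ 2 * (θ * u' ^ (q - 2))) = 0 := by
          linear_combination h4
        have h12 := (mul_eq_zero.mp h11).resolve_left h10
        rw [h6] at h12
        change 2 * (θ * (u' ^ (q - 2) * ((z.1 - hsq z.2.2) - u' * z.2.1))) + Bf z.1 z.2.1 z.2.2 = 0
        linear_combination h12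
      · refine Or.inl ?_
        rw [hu', h4, zero_div]
    · rw [smul_vecY35, ← hu, ← hyy, ← h2, ← h3]

/-- **T1 finiteness.** -/
theorem MSt.finT1 {q E₀ : ℕ} {φ : MvPolynomial (Option (Option τ)) ℂ} (h : MSt τ q E₀ φ) (hq : 3 ≤ q) (i0 : τ)
    (hA : ∀ (w : ℂ) (x : τ → ℂ), x i0 = 0 → eval (vec 0 w x) (pderiv (some none) φ) = 0 →
      (∀ i, i ≠ i0 → eval (vec 0 w x) (pderiv (some (some i)) φ) = 0) → w = 0 ∧ x = 0)
    (hmul : ∀ θ : ℂ, θ ≠ 0 →
      mulAt (affIdeal (formR φ (RZ τ q i0 0 θ 0)) (gram (Option τ)) (some none)) 0 ≠ 0) :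
    {θ : ℂ | ¬ ProjFin {x | IsEig (formR φ (RZ τ q i0 0 θ 0)) (gram (Option τ)) x}}.Finite := by
  classical
  have hψ := classC_finLines' (by omega : 2 ≤ q) h.wh h.hi h.fin
  -- the genericity of `θ`
  obtain ⟨B, hB, H⟩ := classC_claim (by omega : 2 ≤ q) (fun s w x => eval (vec s w x) (pderiv (some none) φ))
    (fun i s w x => eval (vec s w x) (pderiv (some (some i)) φ)) (scale_deriv h.wh none)
    (fun i => scale_deriv h.wh (some i)) (Px φ) (Px_hom h.wh) eval_Px h.hi
    (by
      refine (finite_crit φ h.fin).subset ?_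
      rintro z ⟨h4, h5⟩ o
      rcases o with _ | i
      · exact h4
      · exact h5 i)
    (fun u w x => if w = 0 then 2 * (u ^ (q - 2) * x i0) else w ^ (q - 1)) (fun _ _ _ => 0)
    (by
      intro c u w x
      have h1 : q - 1 = (q - 2) + 1 := by omega
      by_cases hc : c = 0
      · subst hc
        have h2 : ((0 : ℂ) • x) i0 = 0 := by simp
        rw [zero_mul, if_pos rfl, h2, zero_pow (by omega : q - 1 ≠ 0)]
        ring
      · by_cases hw : w = 0
        · subst hw
          rw [mul_zero, if_pos rfl, if_pos rfl, Pi.smul_apply, smul_eq_mul, mul_pow, h1, pow_succ]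
          ring
        · rw [if_neg (mul_ne_zero hc hw), if_neg hw, mul_pow])
    (by intros; ring) (by intros; rfl)
    (by
      intro u w x hw _ _
      rw [if_neg hw]
      exact pow_ne_zero _ hw)
  refine (hB.union (Set.finite_singleton (0 : ℂ))).subset ?_
  intro θ hθ
  by_contra hcon
  rw [Set.mem_union, not_or, Set.mem_singleton_iff] at hcon
  obtain ⟨hθB, hθ0⟩ := hcon
  apply hθ
  change FinLines (IsEig (formR φ (RZ τ q i0 0 θ 0)) (gram (Option τ)))
  set f := formR φ (RZ τ q i0 0 θ 0) with hf
  have hhom : f.IsHomogeneous (q + 1) := formR_hom (by omega) h.wh (wh_RZ (by omega) i0 0 θ 0)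
  have hcof : (cofY φ (RZ τ q i0 0 θ 0)).IsHomogeneous (q - 1) :=
    cofY_hom (by omega) h.wh (wh_RZ (by omega) i0 0 θ 0)
  -- part C
  set g : MvPolynomial (Option (Option (Option τ))) ℂ :=
    C ((q : ℂ) - 2) * X (some (some none)) ^ 2 - C 2 * (X none * X (some none)) with hg
  have hgh : g.IsHomogeneous 2 := by
    apply isHomogeneous_of_wh
    rw [hg]
    refine wh_sub ?_ ?_
    · exact wh_C_mul _ (wh_pow (wh_X (fun _ => 1) (some (some none))) 2)
    · exact wh_C_mul _ (wh_mul (wh_X (fun _ => 1) none) (wh_X (fun _ => 1) (some none)))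
  have hge : ∀ (u w y : ℂ) (x : τ → ℂ), eval (vecY u w y x) g = ((q : ℂ) - 2) * y ^ 2 - 2 * (u * w) := by
    intro u w y x
    rw [hg]
    simp only [map_sub, map_mul, map_pow, eval_X, eval_C]
    rfl
  have hCC := finLines_extra35 (m := q - 1) f hhom (gram (Option τ)) (some none) gram_w
    (some (some none)) (cofY φ (RZ τ q i0 0 θ 0)) hcof (by omega) g hgh 0 (by
      intro v hvy hv hvg
      rw [← vecY_eta v, hvy] at hv hvg
      set u := v none with hu
      set w := v (some none) with hw
      set x : τ → ℂ := fun i => v (some (some (some i))) with hx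
      obtain ⟨-, h2, h3⟩ := eqns35 φ q i0 θ hq hv
      rw [hge] at hvg
      have hT : u * w + ((0 : ℂ) ^ 2 / 2 + hsq x) = u * w + hsq x := by ring
      rw [hT] at h2 h3
      have h3' : ∀ i, eval (vec (u * w + hsq x) w x) (pderiv (some (some i)) φ) =
          2 * (θ * (u ^ (q - 2) * x i0)) * x i := by
        intro i
        have h4 := h3 i
        rw [zero_pow two_ne_zero, zero_mul, ite_self, add_zero] at h4
        exact h4
      have huw : u * w = 0 := by linear_combination (-1 / 2) * hvg
      have hw0 : w = 0 := by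
        by_contra hw0
        have hu0 : u = 0 := (mul_eq_zero.mp huw).resolve_right hw0
        rw [hu0, zero_mul, zero_add, zero_pow (by omega), mul_zero] at h2
        simp only [hu0, zero_mul, zero_add, zero_pow (show q - 2 ≠ 0 by omega), mul_zero] at h3'
        apply hw0
        apply h.hii w x
        intro o
        rcases o with _ | i
        · exact h2
        · exact h3' i
      have h5 := H θ hθB u 0 x (θ * (2 * (u ^ (q - 2) * x i0))) (by rw [if_pos rfl]; ring) (mul_zero _)
        (by rw [hw0] at h2; rw [h2]; ring) (fun i => by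
          have h6 := h3' i
          rw [hw0] at h6
          rw [h6]
          ring)
      refine ⟨u, ?_⟩
      rw [← vecY_eta v, hvy, ← hu, ← hw, ← hx, hw0, h5.2]
      funext o
      rcases o with _ | _ | _ | i <;> simp [vecY, vec]) (hmul θ hθ0)
  -- part A
  obtain ⟨FA, hFA, hFA'⟩ := wlines35 (τ := τ) (ι := Option τ)
    (fun j => j.elim (pderiv (some none) φ) fun i => if i = i0 then X (some (some i0)) else pderiv (some (some i)) φ)
    (fun j => j.elim q fun i => if i = i0 then 1 else q)
    (by
      intro j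
      rcases j with _ | i
      · exact wh_pderiv h.wh (some none) q rfl
      · by_cases hi : i = i0
        · subst hi
          simp only [Option.elim, if_pos]
          exact wh_X (vw τ) (some (some i))
        · simp only [Option.elim, if_neg hi]
          exact wh_pderiv h.wh (some (some i)) q rfl)
    (by
      intro w x hz
      refine hA w x ?_ (hz none) fun i hi => ?_
      · have h1 := hz (some i0)
        simp only [Option.elim, if_pos, eval_X] at h1
        exact h1
      · have h1 := hz (some i)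
        simp only [Option.elim, if_neg hi] at h1
        exact h1)
  have hAA := lift35 (τ := τ) hq hθ0 (fun s w x => eval (vec s w x) (pderiv (some (some i0)) φ))
    (scale_deriv h.wh (some i0)) hFA
  -- part B
  obtain ⟨FB, hFB, hFB'⟩ := wlines35 (τ := τ) (ι := Option τ) (fun j => pderiv (some j) φ) (fun _ => q)
    (by
      intro j
      rcases j with _ | i
      · exact wh_pderiv h.wh (some none) q rfl
      · exact wh_pderiv h.wh (some (some i)) q rfl)
    (by
      intro w x hz
      have h1 := h.nd (vec 0 w x) rfl hz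
      refine ⟨congrFun h1 (some none), ?_⟩
      funext i
      exact congrFun h1 (some (some i)))
  have hBB := lift35 (τ := τ) hq hθ0 (fun _ _ _ => 0) (by intros; ring) hFB
  -- the base
  have hbase : FinLines (fun v => IsEig f (gram (Option τ)) v ∧ v (some (some none)) = 0) := by
    obtain ⟨L, hL, hL'⟩ := hψ
    refine ⟨(fun t : Option (Option τ) → ℂ => vecY (t none) (t (some none)) 0 fun i => t (some (some i))) '' L,
      hL.image _, ?_⟩
    rintro v ⟨hv, hvy⟩
    set u := v none with hu
    set w := v (some none) with hw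
    set x : τ → ℂ := fun i => v (some (some (some i))) with hx
    have hveta : v = vecY u w 0 x := by
      rw [← vecY_eta v, hvy]
    have hv' : IsEig (formC φ) (gram τ) (vec u w x) := by
      intro j k
      have h1 := hv (embV τ j) (embV τ k)
      rw [hveta] at h1
      rw [sl_gram, sl_gram, map_sub, map_mul, map_mul, hf, pderiv_formR, pderiv_formR, eval_slq_embV,
        eval_slq_embV] at h1
      rw [sl_gram, sl_gram, map_sub, map_mul, map_mul]
      exact h1
    obtain ⟨t, ht, c, hc⟩ := hL' _ hv'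
    refine ⟨_, ⟨t, ht, rfl⟩, c, ?_⟩
    rw [hveta]
    funext o
    rcases o with _ | _ | _ | i
    · exact congrFun hc none
    · exact congrFun hc (some none)
    · simp [vecY, vec]
    · exact congrFun hc (some (some i))
  refine (hbase.or ((hAA.or hBB).or hCC)).mono ?_
  intro v hv
  by_cases hvy : v (some (some none)) = 0
  · exact Or.inl ⟨hv, hvy⟩
  right
  -- the gradient is `cofY · S x`
  have hD : ∀ k, eval v (pderiv k f) = eval v (cofY φ (RZ τ q i0 0 θ 0)) *
      eval v (sl (gram (Option τ)) k) := by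
    intro k
    have h1 := hv k (some (some none))
    have hsy : sl (gram (Option τ)) (some (some none)) = X (some (some none)) := by
      rw [sl_gram]
      rfl
    rw [hsy, hf, pderiv_y_formR, ← hf] at h1
    simp only [map_sub, map_mul, eval_X] at h1
    have h2 : v (some (some none)) * (eval v (pderiv k f) - eval v (cofY φ (RZ τ q i0 0 θ 0)) *
        eval v (sl (gram (Option τ)) k)) = 0 := by
      linear_combination -h1
    exact sub_eq_zero.mp ((mul_eq_zero.mp h2).resolve_left hvy)
  have hv2 := hD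
  rw [← vecY_eta v] at hv2
  set u := v none with hu
  set w := v (some none) with hw
  set y := v (some (some none)) with hy
  set x : τ → ℂ := fun i => v (some (some (some i))) with hx
  have hveta : v = vecY u w y x := (vecY_eta v).symm
  obtain ⟨h1, h2, h3⟩ := eqns35 φ q i0 θ hq hv2
  have h4 := (mul_eq_zero.mp h1).resolve_left hθ0
  rcases mul_eq_zero.mp h4 with h5 | h5
  · -- `u = 0`
    left
    right
    have hu0 : u = 0 := eq_zero_of_pow_eq_zero h5
    refine ⟨u, w, y, x, hveta, hvy, ?_, Or.inr hu0⟩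
    refine hFB' _ w x ?_
    intro j
    have e0 : u ^ (q - 2) = 0 := by rw [hu0]; exact zero_pow (by omega)
    rcases j with _ | i
    · rw [h2, e0]
      ring
    · have h6 := h3 i
      rw [e0, mul_zero, mul_zero, ite_self, add_zero] at h6
      rw [h6]
      ring
  · rcases mul_eq_zero.mp h5 with h6 | h6
    · -- `b = 0`
      left
      left
      refine ⟨u, w, y, x, hveta, hvy, ?_, Or.inl ?_⟩
      · refine hFA' _ w x ?_
        intro j
        rcases j with _ | i
        · change eval _ (pderiv (some none) φ) = 0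
          rw [h2, h6]
          ring
        · by_cases hi : i = i0
          · subst hi
            simp only [Option.elim, if_pos, eval_X]
            exact h6
          · simp only [Option.elim, if_neg hi]
            have h7 := h3 i
            rw [if_neg hi, add_zero, h6] at h7
            rw [h7]
            ring
      · have h7 := h3 i0
        rw [if_pos rfl, h6] at h7
        rw [h7]
        ring
    · -- `(q-2) y² = 2 u w`
      right
      refine ⟨hD, ?_⟩
      rw [hveta, hge]
      exact h6

end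

end EY
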