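import Pool.Agent.helper35.EY.FinZ1
import Pool.Agent.helper51.EY.ZDef

set_option autoImplicit false
set_option linter.unusedSectionVars false
set_option linter.unusedSimpArgs false

/-!
# EY-FinZ2: the finiteness theorems `MSt.finZ`, `MSt.finT1` in the format of `ZDef.lean` (`RZm`, `zpt`)
-/

namespace EY

open MvPolynomial

noncomputable section

variable {ρ : Type} [Fintype ρ] [DecidableEq ρ]

theorem RZm_eq35 (q : ℕ) (θ ω : ℂ) : RZm ρ q θ ω = RZ (Option ρ) q none ω θ 0 := by
  unfold RZm RZ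
  rw [C_0, zero_mul, add_zero]

/-- the step `Z(ω)` over a metric state without critical points with `b + ω w = 0`, `w ≠ 0` -/
theorem MSt.finZm {q E₀ : ℕ} {φ : MvPolynomial (Option (Option (Option ρ))) ℂ} (h : MSt (Option ρ) q E₀ φ)
    (hq : 2 ≤ q) (ω : ℂ)
    (hb : ∀ (s w b : ℂ) (z : ρ → ℂ), (∀ o, eval (zpt s w b z) (pderiv (some o) φ) = 0) → b + ω * w = 0 → w = 0)
    (hmul : ∀ θ : ℂ, θ ≠ 0 →
      mulAt (affIdeal (formR φ (RZm ρ q θ ω)) (gram (Option (Option ρ))) (some none)) 0 ≠ 0) :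
    {θ : ℂ | ¬ ProjFin {x | IsEig (formR φ (RZm ρ q θ ω)) (gram (Option (Option ρ))) x}}.Finite := by
  simp only [RZm_eq35] at hmul ⊢
  refine h.finZ hq none ω 0 ?_ hmul
  intro s w x h1 h2
  refine hb s w (x none) (fun r => x (some r)) ?_ h2
  have h3 : zpt s w (x none) (fun r => x (some r)) = vec s w x := by
    unfold zpt
    congr 1
    funext o
    cases o <;> rfl
  rw [h3]
  exact h1

/-- all but finitely many `ω` satisfy the condition `hb` of `MSt.finZm` -/
theorem St.finZm_generic {q E₀ : ℕ} {φ : MvPolynomial (Option (Option (Option ρ))) ℂ}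
    (h : St (Option ρ) q E₀ φ) :
    {ω : ℂ | ¬ ∀ (s w b : ℂ) (z : ρ → ℂ), (∀ o, eval (zpt s w b z) (pderiv (some o) φ) = 0) → b + ω * w = 0 →
      w = 0}.Finite := by
  refine (h.finZ_generic none).subset ?_
  intro ω hω hcon
  apply hω
  intro s w b z h1 h2
  exact hcon s w (fun o : Option ρ => o.elim b z) h1 h2

/-- **T1 finiteness** (the step `Z(0)`): no condition on the critical points -/
theorem MSt.finT1m {q E₀ : ℕ} {φ : MvPolynomial (Option (Option (Option ρ))) ℂ} (h : MSt (Option ρ) q E₀ φ)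
    (hq : 3 ≤ q)
    (hA : ∀ (w : ℂ) (z : ρ → ℂ), eval (zpt 0 w 0 z) (pderiv (some none) φ) = 0 →
      (∀ r, eval (zpt 0 w 0 z) (pderiv (some (some (some r))) φ) = 0) → w = 0 ∧ z = 0)
    (hmul : ∀ θ : ℂ, θ ≠ 0 →
      mulAt (affIdeal (formR φ (RZm ρ q θ 0)) (gram (Option (Option ρ))) (some none)) 0 ≠ 0) :
    {θ : ℂ | ¬ ProjFin {x | IsEig (formR φ (RZm ρ q θ 0)) (gram (Option (Option ρ))) x}}.Finite := by
  simp only [RZm_eq35] at hmul ⊢
  refine h.finT1 hq none ?_ hmul
  intro w x h1 h2 h3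
  have h4 : zpt 0 w 0 (fun r => x (some r)) = vec 0 w x := by
    unfold zpt
    congr 1
    funext o
    cases o with
    | none => exact h1.symm
    | some r => rfl
  obtain ⟨hw, hz⟩ := hA w (fun r => x (some r)) (by rw [h4]; exact h2) (by
    intro r
    rw [h4]
    exact h3 (some r) (by simp))
  refine ⟨hw, ?_⟩
  funext o
  cases o with
  | none => exact h1
  | some r => exact congrFun hz r

end

end EY
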