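import Pool.Agent.helper35.EY.EF

set_option autoImplicit false
set_option linter.unusedSectionVars false

/-!
# EY-YF: the Y-form: homogeneity, finiteness of the eigenscheme, singular points
-/

namespace EY

open MvPolynomial

noncomputable section

variable {τ : Type} [Fintype τ] [DecidableEq τ] {q M : ℕ} {P : MvPolynomial (Option τ) ℂ} {S : Finset (τ → ℂ)}

theorem yQ_hom35 (hq : 2 ≤ q) (X' : ℕ) (h2 : X' ≤ q - 1) (a : ℂ) :
    (yQ (τ := τ) q X' a).IsHomogeneous (q - 1) := by
  unfold yQ
  have hb : (X (some none) ^ (q - 1) : MvPolynomial (Option (Option τ)) ℂ).IsHomogeneous (q - 1) := by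
    simpa using (isHomogeneous_X ℂ (some none : Option (Option τ))).pow (q - 1)
  split_ifs with hX
  · simpa using (isHomogeneous_C (Option (Option τ)) (a / 2)).mul hb
  · refine IsHomogeneous.sub ?_ ?_
    · simpa using (isHomogeneous_C (Option (Option τ)) (a / 2)).mul hb
    · have h3 := ((isHomogeneous_X ℂ (some none : Option (Option τ))).pow X').mul
        ((isHomogeneous_X ℂ (none : Option (Option τ))).pow (q - 1 - X'))
      have h4 := (isHomogeneous_C (Option (Option τ)) (a / ((q : ℂ) + 1 - X'))).mul h3
      have h5 : 0 + (1 * X' + 1 * (q - 1 - X')) = q - 1 := by omega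
      rwa [h5] at h4

theorem yform_hom35 (hq : 2 ≤ q) (hP : P.IsHomogeneous (q + 1)) (X' : ℕ) (_h1 : 1 ≤ X') (h2 : X' ≤ q - 1) (a : ℂ) :
    (yform q X' a P).IsHomogeneous (q + 1) := by
  unfold yform
  refine IsHomogeneous.add hP.rename_isHomogeneous ?_
  have h3 := ((isHomogeneous_X ℂ (none : Option (Option τ))).pow 2).mul (yQ_hom35 hq X' h2 a)
  have h4 : 1 * 2 + (q - 1) = q + 1 := by omega
  rwa [h4] at h3

/-- the cofactor of `y` in `∂_y f` -/
def yg35 (q X' : ℕ) (a : ℂ) : MvPolynomial (Option (Option τ)) ℂ :=
  2 * yQ q X' a + X none * pderiv none (yQ q X' a)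

theorem yg_hom35 (hq : 2 ≤ q) (X' : ℕ) (h2 : X' ≤ q - 1) (a : ℂ) :
    (yg35 (τ := τ) q X' a).IsHomogeneous (q - 1) := by
  unfold yg35
  refine IsHomogeneous.add ?_ ?_
  · have h3 : (2 : MvPolynomial (Option (Option τ)) ℂ) = C 2 := (map_ofNat C 2).symm
    rw [h3]
    simpa using (isHomogeneous_C (Option (Option τ)) (2 : ℂ)).mul (yQ_hom35 (τ := τ) hq X' h2 a)
  · have h3 := (isHomogeneous_X ℂ (none : Option (Option τ))).mul
      ((yQ_hom35 (τ := τ) hq X' h2 a).pderiv (i := none))
    have h4 : 1 + (q - 1 - 1) = q - 1 := by omega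
    rwa [h4] at h3

theorem yform_pd_y35 (q X' : ℕ) (a : ℂ) (P : MvPolynomial (Option τ) ℂ) :
    pderiv none (yform q X' a P) = X none * yg35 q X' a := by
  unfold yform yg35
  have h0 : pderiv none (rename (some : Option τ → Option (Option τ)) P) = 0 := by
    apply pderiv_eq_zero_of_notMem_vars
    intro hmem
    obtain ⟨o, _, ho⟩ := Finset.mem_image.mp (vars_rename (some : Option τ → Option (Option τ)) P hmem)
    simp at ho
  rw [map_add, h0, Derivation.leibniz, Derivation.leibniz_pow, pderiv_X_self]
  simp only [smul_eq_mul, nsmul_eq_mul, Nat.cast_ofNat, mul_one, Nat.add_one_sub_one, pow_one]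
  ring

theorem yform_pd_x35 (q X' : ℕ) (a : ℂ) (P : MvPolynomial (Option τ) ℂ) (o : Option τ) :
    pderiv (some o) (yform q X' a P) = rename some (pderiv o P) + X none ^ 2 * pderiv (some o) (yQ q X' a) := by
  unfold yform
  have h0 : pderiv (some o) (rename (some : Option τ → Option (Option τ)) P) = rename some (pderiv o P) :=
    pderiv_rename (Option.some_injective _) o P
  rw [map_add, h0, Derivation.leibniz, Derivation.leibniz_pow,
    pderiv_X_of_ne (R := ℂ) (show (none : Option (Option τ)) ≠ some o by simp)]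
  simp

theorem eval_yQ_zero35 (hq : 2 ≤ q) (X' : ℕ) (h2 : X' ≤ q - 1) (a : ℂ) (v : Option (Option τ) → ℂ)
    (hv : v none = 0) : eval v (yQ (τ := τ) q X' a) = a / 2 * v (some none) ^ (q - 1) := by
  unfold yQ
  split_ifs with hX
  · simp
  · have h3 : q - 1 - X' ≠ 0 := by omega
    simp [hv, zero_pow h3]

/-- `g = a (b^(q-1) - b^X y^(q-1-X))` -/
theorem eval_yg35 (hq : 2 ≤ q) (X' : ℕ) (h2 : X' ≤ q - 1) (a : ℂ) (v : Option (Option τ) → ℂ) :
    eval v (yg35 (τ := τ) q X' a) = if X' = q - 1 then a * v (some none) ^ (q - 1) else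
      a * (v (some none) ^ (q - 1) - v (some none) ^ X' * v none ^ (q - 1 - X')) := by
  unfold yg35 yQ
  have hne : (some none : Option (Option τ)) ≠ none := by simp
  split_ifs with hX
  · rw [Derivation.leibniz, Derivation.leibniz_pow, pderiv_C, pderiv_X_of_ne (R := ℂ) hne]
    simp only [map_add, map_mul, map_ofNat, eval_C, map_pow, eval_X, smul_zero, add_zero, map_zero, mul_zero]
    ring
  · obtain ⟨r, hr⟩ : ∃ r, q - 1 - X' = r + 1 := ⟨q - 1 - X' - 1, by omega⟩
    have hqr : (q : ℂ) + 1 - X' = (r : ℂ) + 3 := by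
      have : q = X' + r + 2 := by omega
      rw [this]
      push_cast
      ring
    have hr3 : ((r : ℂ) + 3) ≠ 0 := by
      have : ((r + 3 : ℕ) : ℂ) ≠ 0 := by
        rw [Nat.cast_ne_zero]
        omega
      push_cast at this
      exact this
    rw [hr, hqr, map_sub, Derivation.leibniz, Derivation.leibniz, Derivation.leibniz, Derivation.leibniz_pow,
      Derivation.leibniz_pow, Derivation.leibniz_pow, pderiv_C, pderiv_C, pderiv_X_of_ne (R := ℂ) hne,
      pderiv_X_self]
    simp only [map_add, map_sub, map_mul, map_ofNat, eval_C, map_pow, eval_X, smul_zero, add_zero, map_zero,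
      mul_zero, smul_eq_mul, nsmul_eq_mul, mul_one, Nat.add_sub_cancel, map_natCast, zero_add]
    push_cast
    field_simp
    ring

/-- `f_b` for the part `y² Q` -/
theorem eval_yQ_b35 (hq : 2 ≤ q) (X' : ℕ) (h1 : 1 ≤ X') (h2 : X' ≤ q - 1) (a : ℂ) (v : Option (Option τ) → ℂ) :
    eval v (pderiv (some none) (yQ (τ := τ) q X' a)) =
      if X' = q - 1 then a / 2 * ((q : ℂ) - 1) * v (some none) ^ (q - 2) else
      a / 2 * ((q : ℂ) - 1) * v (some none) ^ (q - 2) -
        a / ((q : ℂ) + 1 - X') * X' * v (some none) ^ (X' - 1) * v none ^ (q - 1 - X') := by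
  unfold yQ
  have hne : (none : Option (Option τ)) ≠ some none := by simp
  have hcast : ((q - 1 : ℕ) : ℂ) = (q : ℂ) - 1 := by
    rw [Nat.cast_sub (by omega), Nat.cast_one]
  have hq2 : q - 1 - 1 = q - 2 := by omega
  split_ifs with hX
  · rw [Derivation.leibniz, Derivation.leibniz_pow, pderiv_C, pderiv_X_self]
    simp only [map_add, map_mul, eval_C, map_pow, eval_X, smul_zero, add_zero, smul_eq_mul,
      nsmul_eq_mul, mul_one, map_natCast, map_zero, mul_zero]
    rw [hcast, hq2]
    ring
  · rw [map_sub, Derivation.leibniz, Derivation.leibniz, Derivation.leibniz, Derivation.leibniz_pow,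
      Derivation.leibniz_pow, Derivation.leibniz_pow, pderiv_C, pderiv_C, pderiv_X_of_ne (R := ℂ) hne,
      pderiv_X_self]
    simp only [map_add, map_sub, map_mul, eval_C, map_pow, eval_X, smul_zero, add_zero, map_zero,
      mul_zero, smul_eq_mul, nsmul_eq_mul, mul_one, map_natCast, zero_add]
    rw [hcast, hq2]
    ring

theorem pderiv_yQ_z35 (q X' : ℕ) (a : ℂ) (i : τ) : pderiv (some (some i)) (yQ (τ := τ) q X' a) = 0 := by
  unfold yQ
  have h1 : (some none : Option (Option τ)) ≠ some (some i) := by simp
  have h2 : (none : Option (Option τ)) ≠ some (some i) := by simp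
  split_ifs with hX
  · rw [Derivation.leibniz, Derivation.leibniz_pow, pderiv_C, pderiv_X_of_ne (R := ℂ) h1]
    simp
  · rw [map_sub, Derivation.leibniz, Derivation.leibniz, Derivation.leibniz, Derivation.leibniz_pow,
      Derivation.leibniz_pow, Derivation.leibniz_pow, pderiv_C, pderiv_C, pderiv_X_of_ne (R := ℂ) h1,
      pderiv_X_of_ne (R := ℂ) h2]
    simp

theorem yform_fin35 (hq : 2 ≤ q) (h : IQD q τ P S M) (X' : ℕ) (_h1 : 1 ≤ X') (h2 : X' ≤ q - 1) :
    {a : ℂ | ¬ FinLines (IsEV (yform q X' a P))}.Finite := by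
  obtain ⟨T, hT, hT'⟩ := h.fin
  refine ((hT.image fun s : Option τ → ℂ => ev35 P s / s none ^ (q - 1))).subset ?_
  intro a ha
  by_contra hcon
  apply ha
  -- the second part
  have hsec := finLines_of_hyperplane
    (Set.range fun o : Option τ => pderiv (some o) (yform q X' a P) - X (some o) * yg35 q X' a)
    (by
      rintro _ ⟨o, rfl⟩
      refine ⟨q, IsHomogeneous.sub ?_ ?_⟩
      · have h3 := (yform_hom35 hq h.hom X' _h1 h2 a).pderiv (i := some o)
        rwa [Nat.add_sub_cancel] at h3
      · have h3 := (isHomogeneous_X ℂ (some o : Option (Option τ))).mul (yg_hom35 (τ := τ) hq X' h2 a)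
        have h4 : 1 + (q - 1) = q := by omega
        rwa [h4] at h3) one_pos (isHomogeneous_X ℂ (none : Option (Option τ))) (by
      intro v hv hv0
      rw [eval_X] at hv0
      set x : Option τ → ℂ := fun o => v (some o) with hx
      have hPx : ∀ o, eval x (pderiv o P) = (a * x none ^ (q - 1)) * x o := by
        intro o
        have h3 : eval v (pderiv (some o) (yform q X' a P) - X (some o) * yg35 q X' a) = 0 := hv _ ⟨o, rfl⟩
        rw [yform_pd_x35] at h3
        simp only [map_sub, map_add, map_mul, eval_rename, map_pow, eval_X, hv0] at h3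
        have h4 : eval v (yg35 (τ := τ) q X' a) = a * x none ^ (q - 1) := by
          rw [eval_yg35 hq X' h2]
          split_ifs with hX
          · rfl
          · have h5 : q - 1 - X' ≠ 0 := by omega
            rw [hv0, zero_pow h5, mul_zero, sub_zero]
        rw [h4] at h3
        have h5 : (v ∘ some) = x := rfl
        rw [h5] at h3
        have h6 : v (some o) = x o := rfl
        rw [h6] at h3
        linear_combination h3
      have hx0 : x = 0 := by
        by_contra hx0
        obtain ⟨s, hsT, c, hc⟩ := hT' x (by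
          intro i j
          rw [hPx i, hPx j]
          ring)
        obtain ⟨hc0, hnu, hlc⟩ := ev35_scale (by omega) h.hom hPx hc hx0
        have hb : x none = c * s none := by
          rw [hc, Pi.smul_apply, smul_eq_mul]
        have hcq : c ^ (q - 1) ≠ 0 := pow_ne_zero _ hc0
        have h3 : a * s none ^ (q - 1) = ev35 P s := by
          rw [hb, mul_pow] at hlc
          have h4 : c ^ (q - 1) * (a * s none ^ (q - 1) - ev35 P s) = 0 := by linear_combination hlc
          exact sub_eq_zero.mp ((mul_eq_zero.mp h4).resolve_left hcq)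
        by_cases hs0 : s none = 0
        · rw [hs0, zero_pow (by omega), mul_zero] at h3
          have h4 := h.ns s hs0 (fun i => by rw [hnu, ← h3, zero_mul])
          apply hx0
          rw [hc, h4, smul_zero]
        · apply hcon
          refine ⟨s, hsT, ?_⟩
          simp only
          rw [← h3]
          field_simp
      funext o
      rcases o with _ | o
      · exact hv0
      · exact congrFun hx0 o)
  have hfst : FinLines (fun v : Option (Option τ) → ℂ => v none = 0 ∧ IsEV P (fun o => v (some o))) := by
    refine ⟨(fun s : Option τ → ℂ => (fun o : Option (Option τ) => o.elim 0 s)) '' T, hT.image _, ?_⟩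
    rintro v ⟨hv0, hv⟩
    obtain ⟨s, hsT, c, hc⟩ := hT' _ hv
    refine ⟨_, ⟨s, hsT, rfl⟩, c, ?_⟩
    funext o
    rcases o with _ | o
    · simp [hv0]
    · exact congrFun hc o
  refine (hfst.or hsec).mono ?_
  intro v hv
  by_cases hv0 : v none = 0
  · left
    refine ⟨hv0, fun i j => ?_⟩
    have h3 := hv (some i) (some j)
    rw [yform_pd_x35, yform_pd_x35] at h3
    simp only [map_add, map_mul, eval_rename, map_pow, eval_X, hv0] at h3
    have h4 : (v ∘ some) = fun o => v (some o) := rfl
    rw [h4] at h3
    linear_combination h3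
  · right
    rintro _ ⟨o, rfl⟩
    have h3 := hv none (some o)
    rw [yform_pd_y35, map_mul, eval_X] at h3
    rw [map_sub, map_mul, eval_X]
    have h4 : v none * (eval v (pderiv (some o) (yform q X' a P)) - v (some o) * eval v (yg35 q X' a)) = 0 := by
      linear_combination h3
    exact (mul_eq_zero.mp h4).resolve_left hv0

/-- the constant `c = (q-1)/2 - X/(q+1-X) ≠ 0` -/
theorem cX_ne35 (X' : ℕ) (h2 : X' ≤ q - 1) (hX : X' ≠ q - 1) :
    ((q : ℂ) - 1) / 2 - X' / ((q : ℂ) + 1 - X') ≠ 0 := by
  obtain ⟨r, hr⟩ : ∃ r, q = X' + r + 2 := ⟨q - 2 - X', by omega⟩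
  rw [hr]
  push_cast
  have h3 : ((X' : ℂ) + r + 2 + 1 - X') = r + 3 := by ring
  have hr3 : ((r : ℂ) + 3) ≠ 0 := by
    have : ((r + 3 : ℕ) : ℂ) ≠ 0 := by
      rw [Nat.cast_ne_zero]
      omega
    push_cast at this
    exact this
  rw [h3, sub_ne_zero]
  intro h4
  rw [div_eq_div_iff two_ne_zero hr3] at h4
  have h5 : ((X' + r + 1) * (r + 3) : ℕ) = X' * 2 := by
    have h6 : (((X' + r + 1) * (r + 3) : ℕ) : ℂ) = ((X' * 2 : ℕ) : ℂ) := by
      push_cast
      linear_combination h4
    exact_mod_cast h6
  nlinarith

theorem yform_sing35 (hq : 2 ≤ q) (h : IQD q τ P S M) (X' : ℕ) (h1 : 1 ≤ X') (h2 : X' ≤ q - 1) :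
    {a : ℂ | ¬ ∀ v : Option (Option τ) → ℂ, IsSing (yform q X' a P) v →
      (v none = 0 ∧ IsSing P (fun o => v (some o))) ∨ (2 ≤ X' ∧ ∀ o : Option τ, v (some o) = 0)}.Finite := by
  classical
  -- the points with `b = 1`, `P_z = 0`
  have hZ : {z : τ → ℂ | ∀ i, eval (fun o : Option τ => o.elim 1 z) (pderiv (some i) P) = 0}.Finite := by
    have h3 := finLines_of_hyperplane (Set.range fun i : τ => pderiv (some i) P)
      (by
        rintro _ ⟨i, rfl⟩
        exact ⟨_, h.hom.pderiv⟩) one_pos (isHomogeneous_X ℂ (none : Option τ)) (by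
        intro v hv hv0
        rw [eval_X] at hv0
        exact h.ns v hv0 fun i => hv _ ⟨i, rfl⟩)
    refine Set.Finite.of_finite_image (f := fun z : τ → ℂ => (fun o : Option τ => o.elim 1 z)) ?_ ?_
    · refine (h3.finite_chart none).subset ?_
      rintro _ ⟨z, hz, rfl⟩
      refine ⟨?_, rfl⟩
      rintro _ ⟨i, rfl⟩
      exact hz i
    · intro z _ z' _ hzz
      funext i
      exact congrFun hzz (some i)
  set cc : ℂ := ((q : ℂ) - 1) / 2 - X' / ((q : ℂ) + 1 - X') with hcc
  refine ((Set.finite_singleton (0 : ℂ)).union (hZ.biUnion (t := fun z => {a : ℂ | a ∈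
    (Polynomial.nthRoots (q - 1 - X') ((- eval (fun o : Option τ => o.elim 1 z) (pderiv none P) / cc) ^
      (q - 1 - X'))).toFinset}) fun z _ => Finset.finite_toSet _)).subset ?_
  intro a ha
  by_contra hcon
  rw [Set.mem_union, not_or, Set.mem_singleton_iff] at hcon
  obtain ⟨ha0, hcon⟩ := hcon
  apply ha
  intro v hv
  set x : Option τ → ℂ := fun o => v (some o) with hx
  have hPo : ∀ o, eval v (pderiv (some o) (yform q X' a P)) = eval x (pderiv o P) +
      v none ^ 2 * eval v (pderiv (some o) (yQ q X' a)) := by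
    intro o
    rw [yform_pd_x35]
    simp only [map_add, map_mul, eval_rename, map_pow, eval_X]
    rfl
  have hzi : ∀ i, eval x (pderiv (some i) P) = 0 := by
    intro i
    have h3 := hv (some (some i))
    rw [hPo, pderiv_yQ_z35, map_zero, mul_zero, add_zero] at h3
    exact h3
  by_cases hy : v none = 0
  · left
    refine ⟨hy, fun o => ?_⟩
    have h3 := hv (some o)
    rw [hPo, hy] at h3
    linear_combination h3
  · have hg : eval v (yg35 q X' a) = 0 := by
      have h3 := hv none
      rw [yform_pd_y35, map_mul, eval_X] at h3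
      exact (mul_eq_zero.mp h3).resolve_left hy
    rw [eval_yg35 hq X' h2] at hg
    have hfb : eval x (pderiv none P) + v none ^ 2 * eval v (pderiv (some none) (yQ q X' a)) = 0 := by
      have h3 := hv (some none)
      rwa [hPo] at h3
    rw [eval_yQ_b35 hq X' h1 h2] at hfb
    by_cases hb : x none = 0
    · -- `b = 0`
      have hx0 : x = 0 := h.ns x hb hzi
      have hb' : v (some none) = 0 := hb
      have hPb : eval x (pderiv none P) = 0 := by
        rw [hx0]
        have h3 := eval_smul_hom (h.hom.pderiv (i := none)) 0 (0 : Option τ → ℂ)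
        rw [smul_zero, Nat.add_sub_cancel, zero_pow (by omega), zero_mul] at h3
        exact h3
      by_cases hX2 : 2 ≤ X'
      · right
        exact ⟨hX2, fun o => congrFun hx0 o⟩
      · exfalso
        have hX1 : X' = 1 := by omega
        rw [hPb, zero_add, hb'] at hfb
        split_ifs at hfb with hX
        · have hq2 : q = 2 := by omega
          rw [hq2] at hfb
          have h3 : v none ^ 2 * (a / 2) = 0 := by
            have h4 : ((2 : ℕ) : ℂ) - 1 = 1 := by norm_num
            rw [h4] at hfb
            simpa using hfb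
          rcases mul_eq_zero.mp h3 with h4 | h4
          · exact hy (eq_zero_of_pow_eq_zero h4)
          · exact ha0 (by linear_combination 2 * h4)
        · have h4 : q - 2 ≠ 0 := by omega
          rw [zero_pow h4, hX1] at hfb
          have h5 : ((q : ℂ) + 1 - ((1 : ℕ) : ℂ)) = q := by push_cast; ring
          rw [h5] at hfb
          have hq0 : (q : ℂ) ≠ 0 := by
            rw [Nat.cast_ne_zero]
            omega
          have h6 : v none ^ 2 * (a / q * v none ^ (q - 1 - 1)) = 0 := by
            have h7 : (0 : ℂ) ^ (1 - 1) = 1 := by norm_num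
            rw [h7] at hfb
            push_cast at hfb
            linear_combination -hfb
          rcases mul_eq_zero.mp h6 with h7 | h7
          · exact hy (eq_zero_of_pow_eq_zero h7)
          · rcases mul_eq_zero.mp h7 with h8 | h8
            · rcases div_eq_zero_iff.mp h8 with h9 | h9
              · exact ha0 h9
              · exact hq0 h9
            · exact hy (eq_zero_of_pow_eq_zero h8)
    · -- `b ≠ 0`
      exfalso
      have hb' : v (some none) ≠ 0 := hb
      split_ifs at hg hfb with hX
      · rcases mul_eq_zero.mp hg with h3 | h3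
        · exact ha0 h3
        · exact hb' (eq_zero_of_pow_eq_zero h3)
      · set b := v (some none) with hbdef
        set y := v none with hydef
        have hxn : x none = b := rfl
        obtain ⟨r, hr⟩ : ∃ r, q = X' + r + 2 := ⟨q - 2 - X', by omega⟩
        have e1 : q - 1 - X' = r + 1 := by omega
        have e2 : q - 1 = X' + (r + 1) := by omega
        have e3 : q - 2 = (X' - 1) + (r + 1) := by omega
        have hcne : cc ≠ 0 := cX_ne35 (q := q) X' h2 hX
        -- `y^(r+1) = b^(r+1)`
        have hyb : y ^ (r + 1) = b ^ (r + 1) := by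
          rw [e1, e2, pow_add] at hg
          have h3 : a * b ^ X' * (b ^ (r + 1) - y ^ (r + 1)) = 0 := by linear_combination hg
          have h4 : a * b ^ X' ≠ 0 := mul_ne_zero ha0 (pow_ne_zero _ hb')
          exact (sub_eq_zero.mp ((mul_eq_zero.mp h3).resolve_left h4)).symm
        -- `P_b = - a c y² b^(q-2)`
        have hPb : eval x (pderiv none P) = - (a * cc * y ^ 2 * b ^ (q - 2)) := by
          rw [e1, hyb] at hfb
          have h3 : b ^ (X' - 1) * b ^ (r + 1) = b ^ (q - 2) := by rw [← pow_add, e3]
          rw [hcc]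
          have h4 : a / ((q : ℂ) + 1 - X') * X' = a * (X' / ((q : ℂ) + 1 - X')) := by ring
          rw [h4] at hfb
          linear_combination hfb + (y ^ 2 * (a * (X' / ((q : ℂ) + 1 - X')))) * h3
        -- scale
        set z : τ → ℂ := fun i => b⁻¹ * x (some i) with hz
        have hxz : x = b • (fun o : Option τ => o.elim 1 z) := by
          funext o
          rcases o with _ | i
          · simp [hxn]
          · simp only [hz, Pi.smul_apply, smul_eq_mul, Option.elim]
            rw [← mul_assoc, mul_inv_cancel₀ hb', one_mul]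
        have hscale : ∀ o, eval x (pderiv o P) = b ^ q * eval (fun o : Option τ => o.elim 1 z) (pderiv o P) := by
          intro o
          conv_lhs => rw [hxz]
          exact eval_smul_hom (h.hom.pderiv (i := o)) b _
        have hzZ : ∀ i, eval (fun o : Option τ => o.elim 1 z) (pderiv (some i) P) = 0 := by
          intro i
          have h3 := hscale (some i)
          rw [hzi i] at h3
          exact (mul_eq_zero.mp h3.symm).resolve_left (pow_ne_zero _ hb')
        apply hcon
        rw [Set.mem_iUnion₂]
        refine ⟨z, hzZ, ?_⟩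
        change a ∈ (Polynomial.nthRoots (q - 1 - X') _).toFinset
        rw [Multiset.mem_toFinset, Polynomial.mem_nthRoots (by omega)]
        -- `a^(r+1) = (- P_b(1,z)/c)^(r+1)`
        have hPz : eval (fun o : Option τ => o.elim 1 z) (pderiv none P) = - (a * cc * (y / b) ^ 2) := by
          have h3 := hscale none
          rw [hPb] at h3
          have h4 : b ^ q ≠ 0 := pow_ne_zero _ hb'
          have h5 : b ^ q = b ^ (q - 2) * b ^ 2 := by
            rw [← pow_add]
            congr 1
            omega
          rw [h5] at h3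
          have h6 : b ^ (q - 2) ≠ 0 := pow_ne_zero _ hb'
          have h7 : b ^ (q - 2) * (b ^ 2 * eval (fun o : Option τ => o.elim 1 z) (pderiv none P) +
            a * cc * y ^ 2) = 0 := by linear_combination -h3
          have h8 := (mul_eq_zero.mp h7).resolve_left h6
          field_simp
          linear_combination h8
        rw [e1, hPz]
        have h3 : - -(a * cc * (y / b) ^ 2) / cc = a * (y / b) ^ 2 := by
          field_simp
        rw [h3, mul_pow, ← pow_mul, mul_comm 2 (r + 1), pow_mul, div_pow, hyb, div_self (pow_ne_zero _ hb')]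
        ring

end

end EY
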